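import Mathlib

/-!
Counting tools over the field with two elements: fibrewise comparison of finite sets, halving by a
linear functional, and existence of separating vectors.
-/

set_option autoImplicit false

namespace Pool.Agent.Lib.MP_12b84a_co.HC

open Finset

theorem fibre_le {α β : Type*} [DecidableEq β] (P Q : Finset α) (π : α → β) (a b : ℕ)
    (h : ∀ z ∈ P, a * (P.filter (fun x => π x = π z)).card
      ≤ b * (Q.filter (fun x => π x = π z)).card) :
    a * P.card ≤ b * Q.card := by
  have h1 : P.card = ∑ y ∈ P.image π, (P.filter (fun x => π x = y)).card :=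
    card_eq_sum_card_fiberwise (fun x hx => mem_image_of_mem π hx)
  have h2 : ∑ y ∈ P.image π, (Q.filter (fun x => π x = y)).card ≤ Q.card := by
    rw [sum_card_fiberwise_eq_card_filter]; exact card_filter_le _ _
  calc a * P.card = ∑ y ∈ P.image π, a * (P.filter (fun x => π x = y)).card := by
        rw [h1, mul_sum]
    _ ≤ ∑ y ∈ P.image π, b * (Q.filter (fun x => π x = y)).card := by
        refine sum_le_sum fun y hy => ?_
        obtain ⟨z, hz, rfl⟩ := mem_image.1 hy
        exact h z hz
    _ ≤ b * Q.card := by rw [← mul_sum]; exact Nat.mul_le_mul_left _ h2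

theorem coord_le {ι E : Type*} [DecidableEq ι] (P Q : Finset (ι → E)) (w : ι) (Ω : Finset E)
    (a : ℕ) (hP : ∀ z ∈ P, z w ∈ Ω)
    (h : ∀ z ∈ P, ∃ T : Finset E, a ≤ T.card ∧ ∀ x ∈ T, Function.update z w x ∈ Q) :
    a * P.card ≤ Ω.card * Q.card := by
  classical
  refine fibre_le P Q (fun z => fun i : {i // i ≠ w} => z i) a Ω.card fun z hz => ?_
  obtain ⟨T, hT, hTQ⟩ := h z hz
  have h1 : (P.filter (fun x => (fun i : {i // i ≠ w} => x i) = fun i : {i // i ≠ w} => z i)).card
      ≤ Ω.card := by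
    refine card_le_card_of_injOn (fun x => x w) (fun x hx => ?_) (fun x hx y hy hxy => ?_)
    · exact hP x (mem_filter.1 hx).1
    · have hx' := (mem_filter.1 hx).2
      have hy' := (mem_filter.1 hy).2
      funext i
      by_cases hi : i = w
      · subst hi; exact hxy
      · exact (congrFun hx' ⟨i, hi⟩).trans (congrFun hy' ⟨i, hi⟩).symm
  have h2 : T.card ≤
      (Q.filter (fun x => (fun i : {i // i ≠ w} => x i) = fun i : {i // i ≠ w} => z i)).card := by
    refine card_le_card_of_injOn (fun x => Function.update z w x) (fun x hx => ?_)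
      (fun x _ y _ hxy => ?_)
    · refine mem_filter.2 ⟨hTQ x hx, ?_⟩
      funext i
      exact Function.update_of_ne i.2 _ _
    · simpa using congrFun hxy w
  calc _ ≤ a * Ω.card := Nat.mul_le_mul_left _ h1
    _ = Ω.card * a := mul_comm _ _
    _ ≤ _ := Nat.mul_le_mul_left _ (hT.trans h2)

theorem pi_le {ι E : Type*} [Fintype ι] [DecidableEq ι] (B Ω : ι → Finset E) (e : ι → ℕ)
    (h : ∀ w, 2 ^ e w * (B w).card ≤ (Ω w).card) :
    2 ^ (∑ w, e w) * (Fintype.piFinset B).card ≤ (Fintype.piFinset Ω).card := by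
  rw [Fintype.card_piFinset, Fintype.card_piFinset, ← prod_pow_eq_pow_sum, ← prod_mul_distrib]
  exact prod_le_prod' fun w _ => h w

theorem z2 (a : ZMod 2) : a = 0 ∨ a = 1 := by revert a; decide

theorem z2_ne {a : ZMod 2} (h : a ≠ 0) : a = 1 := (z2 a).resolve_left h

theorem z2_add_self (a : ZMod 2) : a + a = 0 := by revert a; decide

variable {E : Type*} [AddCommGroup E] [Module (ZMod 2) E]

theorem dual_add_self (l : Module.Dual (ZMod 2) E) : l + l = 0 := by
  ext x; simpa using z2_add_self (l x)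

theorem dual_eq_of_add {l m : Module.Dual (ZMod 2) E} (h : l + m = 0) : l = m := by
  have : l + m + m = m := by rw [h, zero_add]
  rwa [add_assoc, dual_add_self, add_zero] at this

theorem ex1 {l : Module.Dual (ZMod 2) E} (h : l ≠ 0) : ∃ d, l d = 1 := by
  by_contra hc
  push Not at hc
  exact h (LinearMap.ext fun x => (z2 (l x)).resolve_right (hc x))

theorem ex2 {l m : Module.Dual (ZMod 2) E} (h0 : m ≠ 0) (h1 : m ≠ l) :
    ∃ d, l d = 0 ∧ m d = 1 := by
  by_contra hc
  push Not at hc
  have hc' : ∀ d, l d = 0 → m d = 0 := fun d hd => (z2 (m d)).resolve_right (hc d hd)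
  obtain ⟨e, he⟩ := ex1 h0
  have hle : l e = 1 := z2_ne fun h => by rw [hc' e h] at he; exact zero_ne_one he
  refine h1 (LinearMap.ext fun x => ?_)
  rcases z2 (l x) with hx | hx
  · rw [hx, hc' x hx]
  · have h2 : l (x + e) = 0 := by rw [map_add, hx, hle]; decide
    have h3 := hc' _ h2
    rw [map_add, he] at h3
    rw [hx]
    rcases z2 (m x) with h4 | h4
    · rw [h4] at h3; exact absurd h3 (by decide)
    · exact h4

theorem ex3 {l m k : Module.Dual (ZMod 2) E} (hm0 : m ≠ 0) (hml : m ≠ l) (h0 : k ≠ 0) (h1 : k ≠ l)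
    (h2 : k ≠ m) (h3 : k ≠ l + m) : ∃ d, l d = 0 ∧ m d = 0 ∧ k d = 1 := by
  obtain ⟨e, hle, hme⟩ := ex2 hm0 hml
  rcases z2 (k e) with hke | hke
  · obtain ⟨d, hld, hkd⟩ := ex2 h0 h1
    rcases z2 (m d) with hmd | hmd
    · exact ⟨d, hld, hmd, hkd⟩
    · refine ⟨d + e, by rw [map_add, hld, hle, add_zero], by rw [map_add, hmd, hme]; decide,
        by rw [map_add, hkd, hke, add_zero]⟩
  · have h4 : k + m ≠ 0 := fun h => h2 (dual_eq_of_add h)
    have h5 : k + m ≠ l := fun h => h3 (by rw [← h, add_assoc, dual_add_self, add_zero])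
    obtain ⟨d, hld, hkd⟩ := ex2 h4 h5
    rw [LinearMap.add_apply] at hkd
    rcases z2 (m d) with hmd | hmd
    · rw [hmd, add_zero] at hkd; exact ⟨d, hld, hmd, hkd⟩
    · refine ⟨d + e, by rw [map_add, hld, hle, add_zero], by rw [map_add, hmd, hme]; decide, ?_⟩
      rw [map_add, hke]
      rw [hmd] at hkd
      exact hkd

theorem halve (A B : Finset E) (d : E) (m : Module.Dual (ZMod 2) E) (b : ZMod 2) (hd : m d = 1)
    (hA : ∀ x ∈ A, x + d ∈ A) (hB : ∀ x ∈ B, x ∈ A ∧ m x = b) : 2 * B.card ≤ A.card := by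
  classical
  have h1 : (B.image (· + d)).card = B.card := card_image_of_injective _ (add_left_injective d)
  have h2 : Disjoint B (B.image (· + d)) := by
    rw [disjoint_left]
    intro x hx hx'
    obtain ⟨y, hy, rfl⟩ := mem_image.1 hx'
    have h3 := (hB _ hx).2
    rw [map_add, (hB _ hy).2, hd] at h3
    simp at h3
  have h3 : B ∪ B.image (· + d) ⊆ A := by
    intro x hx
    rcases mem_union.1 hx with hx | hx
    · exact (hB x hx).1
    · obtain ⟨y, hy, rfl⟩ := mem_image.1 hx
      exact hA _ (hB y hy).1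
  have h4 := card_le_card h3
  rw [card_union_of_disjoint h2, h1] at h4
  omega

theorem fibre_lower [Fintype E] {W : Type*} [AddCommGroup W] [Fintype W] (f : E →+ W) (z : E)
    (B : Finset E) (hB : ∀ x, f x = f z → x ∈ B) : Fintype.card E ≤ Fintype.card W * B.card := by
  classical
  have h1 : (univ : Finset E).card = ∑ y ∈ (univ : Finset W), (univ.filter (fun x => f x = y)).card :=
    card_eq_sum_card_fiberwise (fun x _ => mem_univ _)
  rw [← card_univ, h1, ← card_univ, ← smul_eq_mul, ← sum_const]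
  refine sum_le_sum fun y _ => ?_
  rcases (univ.filter (fun x => f x = y)).eq_empty_or_nonempty with h | ⟨x0, hx0⟩
  · rw [h]; simp
  · refine card_le_card_of_injOn (fun x => x - x0 + z) (fun x hx => hB _ ?_)
      (fun x _ y _ hxy => by simpa using hxy)
    have h2 := (mem_filter.1 hx0).2
    have h3 := (mem_filter.1 hx).2
    simp [h2, h3]

/-- The affine hyperplane where a functional takes the value one. -/
noncomputable def hyp [Fintype E] (l : Module.Dual (ZMod 2) E) : Finset E :=
  univ.filter (fun x => l x = 1)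

theorem mem_hyp [Fintype E] {l : Module.Dual (ZMod 2) E} {x : E} : x ∈ hyp l ↔ l x = 1 := by
  simp [hyp]

theorem card_E [Fintype E] : Fintype.card E = 2 ^ Module.finrank (ZMod 2) E := by
  rw [Module.card_eq_pow_finrank (K := ZMod 2), ZMod.card]

theorem card_hyp [Fintype E] {l : Module.Dual (ZMod 2) E} (h : l ≠ 0) :
    2 * (hyp l).card = Fintype.card E := by
  obtain ⟨d, hd⟩ := ex1 h
  apply le_antisymm
  · exact halve univ (hyp l) d l 1 hd (fun x _ => mem_univ _) fun x hx => ⟨mem_univ _, mem_hyp.1 hx⟩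
  · have := fibre_lower l.toAddMonoidHom d (hyp l) fun x hx => mem_hyp.2 (by simpa [hd] using hx)
    rwa [ZMod.card] at this

theorem hyp_half [Fintype E] {l m : Module.Dual (ZMod 2) E} (hm : m ≠ 0) (B : Finset E)
    (hB : ∀ x ∈ B, l x = 1 ∧ m x = 0) : 2 * B.card ≤ (hyp l).card := by
  by_cases hml : m = l
  · have : B = ∅ := eq_empty_of_forall_notMem fun x hx => by
      have h := hB x hx
      rw [hml, h.1] at h
      exact absurd h.2 (by decide)
    simp [this]
  · obtain ⟨d, hld, hmd⟩ := ex2 hm hml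
    exact halve (hyp l) B d m 0 hmd
      (fun x hx => mem_hyp.2 (by rw [map_add, mem_hyp.1 hx, hld, add_zero]))
      fun x hx => ⟨mem_hyp.2 (hB x hx).1, (hB x hx).2⟩

theorem hyp_quarter [Fintype E] {l l0 m : Module.Dual (ZMod 2) E} {r : E} (hr : l r = 0)
    (hl0 : l0 ≠ 0) (hll : l ≠ l0) (hm : m ≠ 0) (hm0 : m ≠ l0) (B : Finset E)
    (hB : ∀ x ∈ B, l x = 1 ∧ m x = 0 ∧ (m + l0) (x + r) = 0) : 4 * B.card ≤ (hyp l).card := by
  classical
  by_cases hml : m = l
  · have : B = ∅ := eq_empty_of_forall_notMem fun x hx => by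
      have h := hB x hx
      rw [hml, h.1] at h
      exact absurd h.2.1 (by decide)
    simp [this]
  by_cases hk : m + l0 = l
  · have : B = ∅ := eq_empty_of_forall_notMem fun x hx => by
      have h := hB x hx
      rw [hk, map_add, h.1, hr] at h
      exact absurd h.2.2 (by decide)
    simp [this]
  have h0 : m + l0 ≠ 0 := fun h => hm0 (dual_eq_of_add h)
  have h2 : m + l0 ≠ m := fun h => hl0 (by simpa using h)
  have h3 : m + l0 ≠ l + m := fun h => hll (by rw [add_comm l m] at h; exact (add_left_cancel h).symm)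
  obtain ⟨d, hld, hmd, hkd⟩ := ex3 hm hml h0 hk h2 h3
  have h4 := halve (univ.filter (fun x => l x = 1 ∧ m x = 0)) B d (m + l0) ((m + l0) r) hkd
    (fun x hx => by
      have h := (mem_filter.1 hx).2
      exact mem_filter.2 ⟨mem_univ _, by rw [map_add, h.1, hld, add_zero],
        by rw [map_add, h.2, hmd, add_zero]⟩)
    (fun x hx => by
      have h := hB x hx
      refine ⟨mem_filter.2 ⟨mem_univ _, h.1, h.2.1⟩, ?_⟩
      have h5 := h.2.2
      rw [map_add] at h5
      have h6 := z2_add_self ((m + l0) r)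
      linear_combination h5 - h6)
  have h5 := hyp_half (l := l) hm (univ.filter (fun x => l x = 1 ∧ m x = 0))
    (fun x hx => (mem_filter.1 hx).2)
  omega

theorem span_half [Fintype E] (l : Module.Dual (ZMod 2) E) (U : Submodule (ZMod 2) E) (k : ℕ)
    (hU : Module.finrank (ZMod 2) U ≤ k) (B : Finset E) (hB : ∀ x ∈ B, l x = 1 ∧ x ∈ U) :
    2 * B.card ≤ 2 ^ k := by
  classical
  rcases B.eq_empty_or_nonempty with h | ⟨d, hd⟩
  · simp [h]
  have h1 := halve (univ.filter (fun x => x ∈ U)) B d l 1 (hB d hd).1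
    (fun x hx => mem_filter.2 ⟨mem_univ _, U.add_mem (mem_filter.1 hx).2 (hB d hd).2⟩)
    (fun x hx => ⟨mem_filter.2 ⟨mem_univ _, (hB x hx).2⟩, (hB x hx).1⟩)
  have h2 : (univ.filter (fun x => x ∈ U)).card = Fintype.card U := by
    rw [Fintype.card_subtype]
  rw [h2, card_E] at h1
  exact h1.trans (Nat.pow_le_pow_right (by norm_num) hU)

theorem finrank_span_image_le {ι : Type*} (z : ι → E) (S : Finset ι) :
    Module.finrank (ZMod 2) (Submodule.span (ZMod 2) (z '' (S : Set ι))) ≤ S.card := by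
  classical
  have h := finrank_span_finset_le_card (R := ZMod 2) (S.image z)
  rw [coe_image] at h
  exact h.trans card_image_le

theorem exists_ann [Fintype E] {ι : Type*} (z : ι → E) (S : Finset ι)
    (hS : S.card < Module.finrank (ZMod 2) E) :
    ∃ m : Module.Dual (ZMod 2) E, m ≠ 0 ∧
      ∀ x ∈ Submodule.span (ZMod 2) (z '' (S : Set ι)), m x = 0 := by
  have h1 : Submodule.span (ZMod 2) (z '' (S : Set ι)) < ⊤ := by
    rw [lt_top_iff_ne_top]
    intro h
    have h2 := finrank_span_image_le z S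
    rw [h, finrank_top] at h2
    omega
  obtain ⟨m, hm, hm'⟩ := Submodule.exists_dual_map_eq_bot_of_lt_top h1 inferInstance
  refine ⟨m, hm, fun x hx => ?_⟩
  have : m x ∈ (Submodule.span (ZMod 2) (z '' (S : Set ι))).map m := Submodule.mem_map_of_mem hx
  rwa [hm', Submodule.mem_bot] at this

end Pool.Agent.Lib.MP_12b84a_co.HC
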