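import Mathlib

/-!
A graph with minimum degree at least two, at most one vertex of degree below `4 s`, and an edge
between any two disjoint sets of size `s`, is Hamiltonian.
-/

set_option autoImplicit false
set_option linter.unusedSectionVars false

namespace Pool.Agent.Lib.MP_12b84a_co.HC

open Finset SimpleGraph

variable {V : Type*} [Fintype V] [DecidableEq V] {G : SimpleGraph V}

/-- A cycle of length `m` through `v0`, as a sequence of vertices. -/
structure Cyc (G : SimpleGraph V) (v0 : V) (m : ℕ) (g : ℕ → V) : Prop where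
  three : 3 ≤ m
  zero : g 0 = v0
  last : g m = v0
  inj : ∀ a, a < m → ∀ b, b < m → g a = g b → a = b
  adj : ∀ k, k < m → G.Adj (g k) (g (k + 1))

theorem Cyc.inj_succ {v0 : V} {m : ℕ} {g : ℕ → V} (h : Cyc G v0 m g) (a : ℕ) (ha : a < m) (b : ℕ)
    (hb : b < m) (hab : g (a + 1) = g (b + 1)) : a = b := by
  have h0 : g m = g 0 := h.last.trans h.zero.symm
  have h3 := h.three
  by_cases h1 : a + 1 = m <;> by_cases h2 : b + 1 = m
  · omega
  · rw [h1, h0] at hab
    have := h.inj 0 (by omega) (b + 1) (by omega) hab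
    omega
  · rw [h2, h0] at hab
    have := h.inj (a + 1) (by omega) 0 (by omega) hab
    omega
  · have := h.inj (a + 1) (by omega) (b + 1) (by omega) hab
    omega

theorem Cyc.le_card {v0 : V} {m : ℕ} {g : ℕ → V} (h : Cyc G v0 m g) : m ≤ Fintype.card V := by
  have := card_le_card_of_injOn (s := range m) (t := univ) g (fun _ _ => mem_univ _)
    (fun a ha b hb hab => h.inj a (by simpa using ha) b (by simpa using hb) hab)
  simpa using this

theorem exists_walk (g : ℕ → V) (k : ℕ) (h : ∀ i, i < k → G.Adj (g i) (g (i + 1))) :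
    ∃ w : G.Walk (g 0) (g k), w.support = (List.range (k + 1)).map g := by
  induction k with
  | zero => exact ⟨Walk.nil, by simp⟩
  | succ k ih =>
    obtain ⟨w, hw⟩ := ih fun i hi => h i (by omega)
    refine ⟨w.concat (h k (by omega)), ?_⟩
    rw [Walk.support_concat, hw, List.range_succ (n := k + 1)]
    simp

theorem Cyc.ham {v0 : V} {m : ℕ} {g : ℕ → V} (h : Cyc G v0 m g)
    (hall : ∀ x, ∃ a, a < m ∧ g a = x) : G.IsHamiltonian := by
  intro _
  obtain ⟨w, hw⟩ := exists_walk g m h.adj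
  have h3 := h.three
  let c : G.Walk v0 v0 := w.copy h.zero h.last
  have hc : c.support = (List.range (m + 1)).map g := by simp [c, hw]
  have hl : c.length = m := by
    have := c.length_support
    rw [hc] at this
    simp at this
    omega
  have hm : m = Fintype.card V := by
    refine le_antisymm h.le_card ?_
    have : (univ : Finset V) ⊆ (range m).image g := fun x _ => by
      obtain ⟨a, ha, rfl⟩ := hall x
      exact mem_image_of_mem _ (mem_range.2 ha)
    have h2 := (card_le_card this).trans card_image_le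
    simpa using h2
  refine ⟨v0, c, Walk.isHamiltonianCycle_iff_isCycle_and_length_eq.2 ⟨?_, hl.trans hm⟩⟩
  refine Walk.isCycle_iff_isPath_tail_and_le_length.2 ⟨?_, by omega⟩
  have hn : ¬ c.Nil := Walk.not_nil_iff_lt_length.2 (by omega)
  rw [Walk.isPath_def, Walk.support_tail_of_not_nil _ hn, hc, List.range_succ_eq_map]
  simp only [List.map_cons, List.tail_cons, List.map_map]
  refine List.Nodup.map_on (fun a ha b hb hab => ?_) List.nodup_range
  exact h.inj_succ a (List.mem_range.1 ha) b (List.mem_range.1 hb) hab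

/-- A path outside the cycle joining two vertices. -/
def Lnk (G : SimpleGraph V) (m : ℕ) (g : ℕ → V) (x y : V) : Prop :=
  ∃ (p : ℕ) (P : ℕ → V), (∀ a, a ≤ p → ∀ b, b ≤ p → P a = P b → a = b) ∧
    (∀ a, a ≤ p → ∀ b, b < m → P a ≠ g b) ∧ (∀ a, a < p → G.Adj (P a) (P (a + 1))) ∧
    G.Adj x (P 0) ∧ G.Adj (P p) y

theorem Cyc.move {v0 : V} {m : ℕ} {g : ℕ → V} (h : Cyc G v0 m g) {i j : ℕ} (hij : i < j)
    (hj : j < m) (hl : Lnk G m g (g i) (g j)) (ha : G.Adj (g (i + 1)) (g (j + 1))) :
    ∃ m' g', m < m' ∧ Cyc G v0 m' g' := by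
  obtain ⟨p, P, hinj, hout, hadj, h0, h1⟩ := hl
  let g' : ℕ → V := fun k =>
    if k ≤ i then g k else if k ≤ i + p + 1 then P (k - i - 1)
    else if k ≤ j + p + 1 then g (i + j + p + 2 - k) else g (k - p - 1)
  have e1 : ∀ k, k ≤ i → g' k = g k := fun k hk => by simp only [g', hk, if_true]
  have e2 : ∀ k, i < k → k ≤ i + p + 1 → g' k = P (k - i - 1) := fun k hk hk' => by
    simp only [g', hk', not_le.2 hk, if_true, if_false]
  have e3 : ∀ k, i + p + 1 < k → k ≤ j + p + 1 → g' k = g (i + j + p + 2 - k) := fun k hk hk' => by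
    simp only [g', hk', not_le.2 hk, show ¬ k ≤ i by omega, if_true, if_false]
  have e4 : ∀ k, j + p + 1 < k → g' k = g (k - p - 1) := fun k hk => by
    simp only [g', not_le.2 hk, show ¬ k ≤ i by omega, show ¬ k ≤ i + p + 1 by omega, if_false]
  have h3 := h.three
  have key : ∀ k, k < m + p + 1 → (∃ c, c < m ∧ g' k = g c ∧
      ((k ≤ i ∧ c = k) ∨ (i + p + 1 < k ∧ k ≤ j + p + 1 ∧ c + k = i + j + p + 2) ∨
        (j + p + 1 < k ∧ c + p + 1 = k))) ∨ (∃ c, c ≤ p ∧ g' k = P c ∧ c + i + 1 = k) := by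
    intro k hk
    by_cases c1 : k ≤ i
    · exact Or.inl ⟨k, by omega, e1 k c1, Or.inl ⟨c1, rfl⟩⟩
    by_cases c2 : k ≤ i + p + 1
    · exact Or.inr ⟨k - i - 1, by omega, e2 k (by omega) c2, by omega⟩
    by_cases c3 : k ≤ j + p + 1
    · exact Or.inl ⟨i + j + p + 2 - k, by omega, e3 k (by omega) c3, by omega⟩
    · exact Or.inl ⟨k - p - 1, by omega, e4 k (by omega), by omega⟩
  refine ⟨m + p + 1, g', by omega, by omega, (e1 0 (by omega)).trans h.zero, ?_,
    fun a ha' b hb hab => ?_, fun k hk => ?_⟩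
  · rw [e4 _ (by omega), show m + p + 1 - p - 1 = m by omega, h.last]
  · rcases key a ha' with ⟨c, hc, ec, hc'⟩ | ⟨c, hc, ec, hc'⟩ <;>
      rcases key b hb with ⟨d, hd, ed, hd'⟩ | ⟨d, hd, ed, hd'⟩ <;> rw [ec, ed] at hab
    · have := h.inj c hc d hd hab
      omega
    · exact absurd hab.symm (hout d hd c hc)
    · exact absurd hab (hout c hc d hd)
    · have := hinj c hc d hd hab
      omega
  · by_cases c1 : k < i
    · rw [e1 k (by omega), e1 (k + 1) (by omega)]; exact h.adj k (by omega)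
    by_cases c2 : k = i
    · rw [c2, e1 i le_rfl, e2 (i + 1) (by omega) (by omega), show i + 1 - i - 1 = 0 by omega]
      exact h0
    by_cases c3 : k < i + p + 1
    · rw [e2 k (by omega) (by omega), e2 (k + 1) (by omega) (by omega),
        show k + 1 - i - 1 = k - i - 1 + 1 by omega]
      exact hadj _ (by omega)
    by_cases c4 : k = i + p + 1
    · rw [c4, e2 _ (by omega) le_rfl, e3 _ (by omega) (by omega),
        show i + p + 1 - i - 1 = p by omega, show i + j + p + 2 - (i + p + 1 + 1) = j by omega]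
      exact h1
    by_cases c5 : k < j + p + 1
    · rw [e3 k (by omega) (by omega), e3 (k + 1) (by omega) (by omega),
        show i + j + p + 2 - k = i + j + p + 2 - (k + 1) + 1 by omega]
      exact (h.adj _ (by omega)).symm
    by_cases c6 : k = j + p + 1
    · rw [c6, e3 _ (by omega) le_rfl, e4 _ (by omega),
        show i + j + p + 2 - (j + p + 1) = i + 1 by omega,
        show j + p + 1 + 1 - p - 1 = j + 1 by omega]
      exact ha
    · rw [e4 k (by omega), e4 (k + 1) (by omega), show k + 1 - p - 1 = k - p - 1 + 1 by omega]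
      exact h.adj _ (by omega)

/-- Any two disjoint sets of size `s` are joined by an edge. -/
def Sep (G : SimpleGraph V) (a b : ℕ) : Prop :=
  ∀ A B : Finset V, Disjoint A B → A.card = a → B.card = b → ∃ x ∈ A, ∃ y ∈ B, G.Adj x y

theorem Sep.link {s : ℕ} (h : Sep G s s) (X Y : Finset V) (hX : s ≤ X.card) (hY : 2 * s ≤ Y.card) :
    ∃ x ∈ X, ∃ y ∈ Y, G.Adj x y := by
  obtain ⟨A, hA, hA'⟩ := exists_subset_card_eq hX
  have h1 := le_card_sdiff A Y
  obtain ⟨B, hB, hB'⟩ := exists_subset_card_eq (show s ≤ (Y \ A).card by omega)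
  obtain ⟨x, hx, y, hy, hxy⟩ := h A B (disjoint_left.2 fun x hx hx' => (mem_sdiff.1 (hB hx')).2 hx)
    hA' hB'
  exact ⟨x, hA hx, y, (mem_sdiff.1 (hB hy)).1, hxy⟩

theorem Cyc.key {s : ℕ} (hs : Sep G s s) {v0 : V} {m : ℕ} {g : ℕ → V} (h : Cyc G v0 m g)
    (hmax : ∀ m' g', Cyc G v0 m' g' → m' ≤ m) (S : Finset ℕ) (hS : ∀ i ∈ S, i < m)
    (hL : ∀ i ∈ S, ∀ j ∈ S, Lnk G m g (g i) (g j)) : S.card < 2 * s ∨ s = 0 := by
  by_contra hc
  push Not at hc
  have h1 : (S.image fun i => g (i + 1)).card = S.card :=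
    card_image_of_injOn fun a ha b hb hab => h.inj_succ a (hS a ha) b (hS b hb) hab
  obtain ⟨x, hx, y, hy, hxy⟩ := hs.link (S.image fun i => g (i + 1)) (S.image fun i => g (i + 1))
    (by omega) (by omega)
  obtain ⟨i, hi, rfl⟩ := mem_image.1 hx
  obtain ⟨j, hj, rfl⟩ := mem_image.1 hy
  rcases lt_trichotomy i j with hij | hij | hij
  · obtain ⟨m', g', h2, h3⟩ := h.move hij (hS j hj) (hL i hi j hj) hxy
    have := hmax m' g' h3
    omega
  · exact hxy.ne (by rw [hij])
  · obtain ⟨m', g', h2, h3⟩ := h.move hij (hS i hi) (hL j hj i hi) hxy.symm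
    have := hmax m' g' h3
    omega

theorem exists_cyc [DecidableRel G.Adj] {s : ℕ} (hs1 : 1 ≤ s) (hs : Sep G s s) (v0 : V)
    (h2 : ∃ a b, a ≠ b ∧ G.Adj v0 a ∧ G.Adj v0 b) (hd : ∀ x, x ≠ v0 → 4 * s ≤ G.degree x) :
    ∃ g, Cyc G v0 5 g := by
  obtain ⟨a, b, hab, ha, hb⟩ := h2
  have h1 := hd a ha.ne'
  have h3 := hd b hb.ne'
  rw [← card_neighborFinset_eq_degree] at h1 h3
  have h4 := pred_card_le_card_erase (s := G.neighborFinset a) (a := v0)
  have h5 := pred_card_le_card_erase (s := (G.neighborFinset a).erase v0) (a := b)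
  have h6 := pred_card_le_card_erase (s := G.neighborFinset b) (a := v0)
  have h7 := pred_card_le_card_erase (s := (G.neighborFinset b).erase v0) (a := a)
  obtain ⟨x, hx, y, hy, hxy⟩ := hs.link (((G.neighborFinset a).erase v0).erase b)
    (((G.neighborFinset b).erase v0).erase a) (by omega) (by omega)
  simp only [mem_erase, mem_neighborFinset] at hx hy
  have n1 := ha.ne
  have n2 := hb.ne
  have n3 := hx.2.2.ne
  have n4 := hy.2.2.ne
  have n5 := hxy.ne
  have n6 := hx.1
  have n7 := hx.2.1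
  have n8 := hy.1
  have n9 := hy.2.1
  refine ⟨fun k => if k = 1 then a else if k = 2 then x else if k = 3 then y else if k = 4 then b
    else v0, by omega, by simp, by simp, fun i hi j hj hij => ?_, fun k hk => ?_⟩
  · interval_cases i <;> interval_cases j <;> simp at hij ⊢ <;> grind
  · interval_cases k <;> simp
    · exact ha
    · exact hx.2.2
    · exact hxy
    · exact hy.2.2.symm
    · exact hb.symm

theorem ham_of_sep0 [DecidableRel G.Adj] {s : ℕ} (hs1 : 1 ≤ s) (hs : Sep G s s) (v0 : V)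
    (h2 : ∃ a b, a ≠ b ∧ G.Adj v0 a ∧ G.Adj v0 b) (hd : ∀ x, x ≠ v0 → 4 * s ≤ G.degree x) :
    G.IsHamiltonian := by
  classical
  obtain ⟨g5, hg5⟩ := exists_cyc hs1 hs v0 h2 hd
  obtain ⟨m, ⟨g, h⟩, hmax'⟩ : ∃ m, (∃ g, Cyc G v0 m g) ∧ ∀ m', (∃ g, Cyc G v0 m' g) → m' ≤ m :=
    ⟨Nat.findGreatest (fun m => ∃ g, Cyc G v0 m g) (Fintype.card V),
      Nat.findGreatest_spec (P := fun m => ∃ g, Cyc G v0 m g) hg5.le_card ⟨g5, hg5⟩,
      fun m' hm' => Nat.le_findGreatest hm'.choose_spec.le_card hm'⟩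
  have hmax : ∀ m' g', Cyc G v0 m' g' → m' ≤ m := fun m' g' h' => hmax' m' ⟨g', h'⟩
  have h3 := h.three
  by_contra hc
  set U := univ.filter (fun x => ∀ a, a < m → x ≠ g a) with hU
  have hU' : ∀ x, x ∈ U ↔ ∀ a, a < m → x ≠ g a := fun x => by simp [hU]
  obtain ⟨d0, hd0⟩ : U.Nonempty := by
    by_contra hn
    refine hc (h.ham fun x => ?_)
    by_contra hx
    push Not at hx
    exact hn ⟨x, (hU' x).2 fun a ha h' => hx a ha h'.symm⟩
  have hUv : ∀ d ∈ U, d ≠ v0 := fun d hd' => h.zero ▸ (hU' d).1 hd' 0 (by omega)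
  have hcov : ∀ x, (G.neighborFinset x).card ≤ (G.neighborFinset x ∩ U).card
      + ((range m).filter fun i => G.Adj x (g i)).card := by
    intro x
    have h4 : G.neighborFinset x ⊆ (G.neighborFinset x ∩ U) ∪
        ((range m).filter fun i => G.Adj x (g i)).image g := by
      intro y hy
      by_cases hyU : y ∈ U
      · exact mem_union_left _ (mem_inter.2 ⟨hy, hyU⟩)
      · rw [hU'] at hyU
        push Not at hyU
        obtain ⟨a, ha, rfl⟩ := hyU
        exact mem_union_right _ (mem_image_of_mem _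
          (mem_filter.2 ⟨mem_range.2 ha, (mem_neighborFinset _ _ _).1 hy⟩))
    exact (card_le_card h4).trans ((card_union_le _ _).trans (Nat.add_le_add_left card_image_le _))
  have hone : ∀ d ∈ U, ∀ x y, G.Adj x d → G.Adj d y → Lnk G m g x y := fun d hd' x y hx hy =>
    ⟨0, fun _ => d, fun a ha b hb _ => by omega, fun a _ b hb => (hU' d).1 hd' b hb,
      fun a ha => by omega, hx, hy⟩
  have hdeg : ∀ d ∈ U, 2 * s + 1 ≤ (G.neighborFinset d ∩ U).card := by
    intro d hd'
    have h4 := h.key hs hmax ((range m).filter fun i => G.Adj d (g i))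
      (fun i hi => mem_range.1 (mem_filter.1 hi).1)
      (fun i hi j hj => hone d hd' _ _ (mem_filter.1 hi).2.symm (mem_filter.1 hj).2)
    have h5 := hcov d
    have h6 := hd d (hUv d hd')
    rw [← card_neighborFinset_eq_degree] at h6
    omega
  have hlnk : ∀ d ∈ U, ∀ d' ∈ U, ∀ x y, G.Adj x d → G.Adj d' y → Lnk G m g x y := by
    intro d hd1 d' hd2 x y hx hy
    by_cases hdd : d = d'
    · exact hone d hd1 x y hx (hdd ▸ hy)
    have h4 := hdeg d hd1
    have h5 := hdeg d' hd2
    have h6 := pred_card_le_card_erase (s := G.neighborFinset d ∩ U) (a := d')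
    have h7 := pred_card_le_card_erase (s := G.neighborFinset d' ∩ U) (a := d)
    obtain ⟨a, ha, b, hb, hab⟩ := hs.link ((G.neighborFinset d ∩ U).erase d')
      ((G.neighborFinset d' ∩ U).erase d) (by omega) (by omega)
    simp only [mem_erase, mem_inter, mem_neighborFinset] at ha hb
    have n1 := ha.1
    have n2 := ha.2.1.ne
    have n3 := hb.1
    have n4 := hb.2.1.ne
    have n5 := hab.ne
    refine ⟨3, fun k => if k = 0 then d else if k = 1 then a else if k = 2 then b else d',
      fun i hi j hj hij => ?_, fun i hi j hj => ?_, fun k hk => ?_, by simpa using hx,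
      by simpa using hy⟩
    · interval_cases i <;> interval_cases j <;> simp at hij ⊢ <;> grind
    · interval_cases i <;> simp
      · exact (hU' _).1 hd1 j hj
      · exact (hU' _).1 ha.2.2 j hj
      · exact (hU' _).1 hb.2.2 j hj
      · exact (hU' _).1 hd2 j hj
    · interval_cases k <;> simp
      · exact ha.2.1
      · exact hab
      · exact hb.2.1.symm
  set S := (range m).filter (fun i => ∃ d ∈ U, G.Adj (g i) d) with hS
  have hSL : ∀ i ∈ S, ∀ j ∈ S, Lnk G m g (g i) (g j) := fun i hi j hj => by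
    obtain ⟨d, hd1, hd2⟩ := (mem_filter.1 hi).2
    obtain ⟨d', hd3, hd4⟩ := (mem_filter.1 hj).2
    exact hlnk d hd1 d' hd3 _ _ hd2 hd4.symm
  have hS2 := h.key hs hmax S (fun i hi => mem_range.1 (mem_filter.1 hi).1) hSL
  have hR : ((range m).filter (fun i => ¬ ∃ d ∈ U, G.Adj (g i) d)).card < s := by
    by_contra hn
    have h4 : (((range m).filter (fun i => ¬ ∃ d ∈ U, G.Adj (g i) d)).image g).card =
        ((range m).filter (fun i => ¬ ∃ d ∈ U, G.Adj (g i) d)).card :=
      card_image_of_injOn fun a ha b hb hab => h.inj a (mem_range.1 (mem_filter.1 ha).1) b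
        (mem_range.1 (mem_filter.1 hb).1) hab
    have h5 := hdeg d0 hd0
    have h6 := card_le_card (inter_subset_right (s₁ := G.neighborFinset d0) (s₂ := U))
    obtain ⟨x, hx, y, hy, hxy⟩ := hs.link
      (((range m).filter (fun i => ¬ ∃ d ∈ U, G.Adj (g i) d)).image g) U (by omega) (by omega)
    obtain ⟨i, hi, rfl⟩ := mem_image.1 hx
    exact (mem_filter.1 hi).2 ⟨y, hy, hxy⟩
  have hm := card_filter_add_card_filter_not (s := range m) (fun i => ∃ d ∈ U, G.Adj (g i) d)
  rw [card_range, ← hS] at hm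
  have hin : ∀ i, 0 < i → i < m → i ∈ S := by
    intro i hi0 hi
    by_contra hn
    have h4 : G.neighborFinset (g i) ∩ U = ∅ := eq_empty_of_forall_notMem fun d hd' =>
      hn (mem_filter.2 ⟨mem_range.2 hi, d, (mem_inter.1 hd').2,
        (mem_neighborFinset _ _ _).1 (mem_inter.1 hd').1⟩)
    have h5 := hcov (g i)
    have h6 := hd (g i) fun h' => by
      have := h.inj i hi 0 (by omega) (h'.trans h.zero.symm)
      omega
    have h7 := card_filter_le (range m) fun j => G.Adj (g i) (g j)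
    rw [← card_neighborFinset_eq_degree] at h6
    rw [h4, card_empty] at h5
    rw [card_range] at h7
    omega
  obtain ⟨m', g', h4, h5⟩ := h.move (show 1 < 2 by omega) (by omega)
    (hSL 1 (hin 1 (by omega) (by omega)) 2 (hin 2 (by omega) (by omega))) (h.adj 2 (by omega))
  have := hmax m' g' h5
  omega

theorem ham_of_sep {s : ℕ} (hs1 : 1 ≤ s) (hn : 8 * s ≤ Fintype.card V) (hs : Sep G s s)
    (hs2 : Sep G 2 (Fintype.card V - 8 * s))
    (h2 : ∀ v, ∃ a b, a ≠ b ∧ G.Adj v a ∧ G.Adj v b) : G.IsHamiltonian := by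
  classical
  have hlow : ∀ v v', v ≠ v' → G.degree v < 4 * s → G.degree v' < 4 * s → False := by
    intro v v' hvv h3 h4
    rw [← card_neighborFinset_eq_degree] at h3 h4
    have h5 := card_union_le (G.neighborFinset v) (G.neighborFinset v')
    have h6 := card_union_le ({v, v'} : Finset V) (G.neighborFinset v ∪ G.neighborFinset v')
    have h7 : ({v, v'} : Finset V).card = 2 := card_pair hvv
    have h8 := card_compl (({v, v'} : Finset V) ∪ (G.neighborFinset v ∪ G.neighborFinset v'))
    obtain ⟨B, hB, hB'⟩ := exists_subset_card_eq (show Fintype.card V - 8 * s ≤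
      (({v, v'} : Finset V) ∪ (G.neighborFinset v ∪ G.neighborFinset v'))ᶜ.card by omega)
    obtain ⟨x, hx, y, hy, hxy⟩ := hs2 {v, v'} B
      (disjoint_left.2 fun x hx hx' => mem_compl.1 (hB hx') (mem_union_left _ hx)) h7 hB'
    refine mem_compl.1 (hB hy) (mem_union_right _ ?_)
    rcases mem_insert.1 hx with rfl | hx
    · exact mem_union_left _ ((mem_neighborFinset _ _ _).2 hxy)
    · rw [mem_singleton.1 hx] at hxy
      exact mem_union_right _ ((mem_neighborFinset _ _ _).2 hxy)
  by_cases hv : ∃ v, G.degree v < 4 * s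
  · obtain ⟨v, hv⟩ := hv
    exact ham_of_sep0 hs1 hs v (h2 v) fun x hx => not_lt.1 fun h => hlow x v hx h hv
  · push Not at hv
    obtain ⟨v⟩ : Nonempty V := Fintype.card_pos_iff.1 (by omega)
    exact ham_of_sep0 hs1 hs v (h2 v) fun x _ => hv x

theorem ham_nbr (hG : G.IsHamiltonian) (h3 : 3 ≤ Fintype.card V) (v x : V) :
    ∃ w, w ≠ x ∧ G.Adj v w := by
  have : Nontrivial V := Fintype.one_lt_card_iff_nontrivial.1 (by omega)
  obtain ⟨p, hp⟩ := hG.exists_isHamiltonianCycle v
  have h1 := hp.isCycle.ncard_neighborSet_toSubgraph_eq_two p.start_mem_support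
  obtain ⟨a, b, hab, h2⟩ := Set.ncard_eq_two.1 h1
  have ha : G.Adj v a := p.toSubgraph.adj_sub (show a ∈ p.toSubgraph.neighborSet v by simp [h2])
  have hb : G.Adj v b := p.toSubgraph.adj_sub (show b ∈ p.toSubgraph.neighborSet v by simp [h2])
  by_cases h : a = x
  · exact ⟨b, fun h' => hab (h.trans h'.symm), hb⟩
  · exact ⟨a, h, ha⟩

end Pool.Agent.Lib.MP_12b84a_co.HC
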