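import Pool.Agent.Lib.MP_12b84a_co.HC.Resample
import Pool.Agent.Lib.MP_12b84a_co.HC.Det

/-!
A linear family of `2 ^ (n - 2)` graphs on `n` vertices all of whose nonzero members are
Hamiltonian, for all `n ≥ 2 ^ 18`, and the matching upper bound.
-/

set_option autoImplicit false
set_option linter.unusedSectionVars false

namespace Pool.Agent.Lib.MP_12b84a_co.HC

open Finset SimpleGraph
open scoped symmDiff

variable {E : Type*} [AddCommGroup E] [Module (ZMod 2) E] [Fintype E]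
  {V : Type*} [Fintype V] [DecidableEq V]

theorem union_bound (hV : Fintype.card V = Module.finrank (ZMod 2) E + 2)
    (h16 : 16 ≤ Module.finrank (ZMod 2) E) (a b : ℕ) (hab : a + b < Fintype.card V)
    (P Q : Finset (V → V → E)) (hP : ∀ φ, Good φ → φ ∈ P)
    (hQ : ∀ φ ∈ Q, Good φ ∧ ∃ y : Module.Dual (ZMod 2) E, y ≠ 0 ∧ ∃ A B : Finset V, Disjoint A B ∧
      A.card = a ∧ B.card = b ∧ ∀ x ∈ A, ∀ w ∈ B, y (φ x w) = 0) :
    2 ^ (a * b) * Q.card ≤ 2 ^ (Fintype.card V - 2) * (Fintype.card V).choose a *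
      (Fintype.card V).choose b * 32 ^ a * P.card := by
  classical
  have : Finite (Module.Dual (ZMod 2) E) :=
    Finite.of_injective (fun f : Module.Dual (ZMod 2) E => (f : E → ZMod 2)) DFunLike.coe_injective
  have : Fintype (Module.Dual (ZMod 2) E) := Fintype.ofFinite _
  have hD : Fintype.card (Module.Dual (ZMod 2) E) = 2 ^ (Fintype.card V - 2) := by
    rw [card_E, Subspace.dual_finrank_eq, hV]; rfl
  let J : Finset (Module.Dual (ZMod 2) E × Finset V × Finset V) :=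
    univ ×ˢ powersetCard a univ ×ˢ powersetCard b univ
  let I := J.filter fun q => q.1 ≠ 0 ∧ Disjoint q.2.1 q.2.2
  have hI : I.card ≤ 2 ^ (Fintype.card V - 2) * (Fintype.card V).choose a *
      (Fintype.card V).choose b := by
    refine (card_filter_le _ _).trans (le_of_eq ?_)
    simp only [J, card_product, card_powersetCard, card_univ, hD, mul_assoc]
  have h1 : Q ⊆ I.biUnion fun q => GE q.1 q.2.1 q.2.2 := by
    intro φ hφ
    obtain ⟨hg, y, hy, A, B, hd, hA, hB, hz⟩ := hQ φ hφ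
    refine mem_biUnion.2 ⟨(y, A, B), mem_filter.2 ⟨?_, hy, hd⟩, mem_GE.2 ⟨hg, hz⟩⟩
    simp [J, hA, hB]
  have h2 : ∀ q ∈ I, 2 ^ (a * b) * (GE q.1 q.2.1 q.2.2 : Finset (V → V → E)).card
      ≤ 32 ^ a * P.card := by
    rintro ⟨y, A, B⟩ hq
    obtain ⟨hJ, hy, hd⟩ := mem_filter.1 hq
    simp only [J, mem_product, mem_powersetCard, mem_univ, true_and, subset_univ] at hJ
    obtain ⟨t, ht⟩ : (A ∪ B)ᶜ.Nonempty := by
      refine card_pos.1 ?_
      have h3 := card_union_le A B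
      rw [card_compl]
      omega
    rw [mem_compl, mem_union, not_or] at ht
    have h3 := ge_iter hV h16 hy t B ht.2 A ht.1 hd
    rw [hJ.1, hJ.2] at h3
    exact h3.trans (Nat.mul_le_mul_left _ (card_le_card fun φ hφ => hP φ (mem_GE.1 hφ).1))
  calc _ ≤ 2 ^ (a * b) * ∑ q ∈ I, (GE q.1 q.2.1 q.2.2 : Finset (V → V → E)).card :=
        Nat.mul_le_mul_left _ ((card_le_card h1).trans card_biUnion_le)
    _ = ∑ q ∈ I, 2 ^ (a * b) * (GE q.1 q.2.1 q.2.2 : Finset (V → V → E)).card := mul_sum _ _ _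
    _ ≤ I.card * (32 ^ a * P.card) := by
        rw [← smul_eq_mul I.card]; exact sum_le_card_nsmul _ _ _ h2
    _ ≤ _ := by rw [mul_assoc _ (32 ^ a)]; exact Nat.mul_le_mul_right _ hI

theorem lin_le_pow (j : ℕ) (hj : 9 ≤ j) : 33 * j + 68 ≤ 2 ^ j := by
  induction j, hj using Nat.le_induction with
  | base => norm_num
  | succ j hj ih => rw [pow_succ]; omega

theorem pow33_le (k : ℕ) (hk : 512 ≤ k) : (2 * k) ^ 33 ≤ 2 ^ (k - 2) := by
  have h1 : k < 2 ^ (Nat.log 2 k + 1) := Nat.lt_pow_succ_log_self (by norm_num) k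
  have h2 : 2 ^ Nat.log 2 k ≤ k := Nat.pow_log_le_self 2 (by omega)
  have h3 : 9 ≤ Nat.log 2 k := Nat.le_log_of_pow_le (by norm_num) (by omega)
  have h4 := lin_le_pow _ h3
  calc (2 * k) ^ 33 ≤ (2 ^ (Nat.log 2 k + 2)) ^ 33 :=
        Nat.pow_le_pow_left (by rw [pow_succ]; omega) _
    _ = 2 ^ ((Nat.log 2 k + 2) * 33) := (pow_mul _ _ _).symm
    _ ≤ _ := Nat.pow_le_pow_right (by norm_num) (by omega)

theorem numerics (n : ℕ) (hn : 2 ^ 18 ≤ n) : ∃ s, 1 ≤ s ∧ 8 * s ≤ n ∧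
    2 * (2 ^ (n - 2) * n.choose s * n.choose s * 32 ^ s) < 2 ^ (s * s) ∧
    2 * (2 ^ (n - 2) * n.choose 2 * n.choose (n - 8 * s) * 32 ^ 2) < 2 ^ (2 * (n - 8 * s)) := by
  obtain ⟨j, hj⟩ : ∃ j, j = Nat.sqrt n := ⟨_, rfl⟩
  have h1 : j * j ≤ n := hj ▸ Nat.sqrt_le n
  have h2 : n < (j + 1) * (j + 1) := hj ▸ Nat.lt_succ_sqrt n
  have h3 : 512 ≤ j := hj ▸ Nat.le_sqrt.2 (by omega)
  have h4 : 512 * j ≤ j * j := Nat.mul_le_mul_right _ h3
  refine ⟨2 * j + 7, by omega, by omega, ?_, ?_⟩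
  · have h5 : n.choose (2 * j + 7) ≤ 2 ^ n := Nat.choose_le_two_pow _ _
    calc _ ≤ 2 * (2 ^ (n - 2) * 2 ^ n * 2 ^ n * 32 ^ (2 * j + 7)) := by gcongr
      _ = 2 ^ (1 + (n - 2) + n + n + 5 * (2 * j + 7)) := by
          rw [show (32 : ℕ) = 2 ^ 5 by norm_num, ← pow_mul]; ring
      _ < _ := Nat.pow_lt_pow_right (by norm_num) (by
          have : (2 * j + 7) * (2 * j + 7) = 4 * ((j + 1) * (j + 1)) + 20 * j + 45 := by ring
          omega)
  · have h5 : n.choose 2 ≤ n ^ 2 := Nat.choose_le_pow _ _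
    have h6 : n.choose (n - 8 * (2 * j + 7)) ≤ n ^ (8 * (2 * j + 7)) := by
      rw [Nat.choose_symm (by omega)]; exact Nat.choose_le_pow _ _
    have h7 : n ^ (16 * j + 58) ≤ (j + 1) ^ (33 * (j + 1)) := by
      calc _ ≤ ((j + 1) ^ 2) ^ (16 * j + 58) := Nat.pow_le_pow_left (by rw [sq]; omega) _
        _ = (j + 1) ^ (2 * (16 * j + 58)) := (pow_mul _ _ _).symm
        _ ≤ _ := Nat.pow_le_pow_right (by omega) (by omega)
    have h8 : 2 ^ (33 * (j + 1)) * (j + 1) ^ (33 * (j + 1)) ≤ 2 ^ ((j - 1) * (j + 1)) := by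
      rw [← mul_pow, pow_mul, pow_mul]
      exact Nat.pow_le_pow_left (pow33_le (j + 1) (by omega)) _
    have h9 : (j - 1) * (j + 1) + 1 = j * j := by
      obtain ⟨i, rfl⟩ : ∃ i, j = i + 1 := ⟨j - 1, by omega⟩
      simp only [Nat.add_sub_cancel]
      ring
    refine Nat.lt_of_mul_lt_mul_left (a := 2 ^ (33 * (j + 1))) ?_
    calc _ ≤ 2 ^ (33 * (j + 1)) * (2 * (2 ^ (n - 2) * n ^ 2 * n ^ (8 * (2 * j + 7)) * 32 ^ 2)) := by
          gcongr
      _ = 2 ^ (n - 2 + 11) * (2 ^ (33 * (j + 1)) * n ^ (16 * j + 58)) := by ring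
      _ ≤ 2 ^ (n - 2 + 11) * (2 ^ (33 * (j + 1)) * (j + 1) ^ (33 * (j + 1))) := by gcongr
      _ ≤ 2 ^ (n - 2 + 11) * 2 ^ ((j - 1) * (j + 1)) := Nat.mul_le_mul_left _ h8
      _ < _ := by
          rw [← pow_add, ← pow_add]
          exact Nat.pow_lt_pow_right (by norm_num) (by omega)

/-- The graph cut out of a good labelling by a functional. -/
def Gr {φ : V → V → E} (hφ : Good φ) (y : Module.Dual (ZMod 2) E) : SimpleGraph V where
  Adj a b := y (φ a b) ≠ 0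
  symm := ⟨fun a b h => by rwa [hφ.symm]⟩
  loopless := ⟨fun a h => h (by rw [hφ.diag, map_zero])⟩

theorem Gr_symmDiff {φ : V → V → E} (hφ : Good φ) (y y' : Module.Dual (ZMod 2) E) :
    Gr hφ y ∆ Gr hφ y' = Gr hφ (y + y') := by
  ext a b
  simp only [symmDiff_def, sup_adj, sdiff_adj, Gr, LinearMap.add_apply]
  generalize y (φ a b) = u
  generalize y' (φ a b) = u'
  revert u u'
  decide

theorem Gr_two {φ : V → V → E} (hφ : Good φ) {y : Module.Dual (ZMod 2) E} (hy : y ≠ 0) (v : V) :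
    ∃ a b, a ≠ b ∧ (Gr hφ y).Adj v a ∧ (Gr hφ y).Adj v b := by
  obtain ⟨a, ha⟩ := hφ.span v y hy
  by_contra hc
  push Not at hc
  have h1 : y (∑ w, φ v w) = y (φ v a) := by
    rw [map_sum]
    refine Finset.sum_eq_single a (fun b _ hb => ?_) (by simp)
    by_contra h
    exact hc a b hb.symm ha h
  rw [hφ.sum, map_zero] at h1
  exact ha h1.symm

theorem exists_good_ham (hV : Fintype.card V = Module.finrank (ZMod 2) E + 2)
    (hn : 2 ^ 18 ≤ Fintype.card V) :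
    ∃ φ : V → V → E, ∃ hφ : Good φ, ∀ y, y ≠ 0 → (Gr hφ y).IsHamiltonian := by
  classical
  have h16 : 16 ≤ Module.finrank (ZMod 2) E := by omega
  obtain ⟨s, hs1, hs8, hs2, hs3⟩ := numerics _ hn
  set P : Finset (V → V → E) := univ.filter fun φ => Good φ with hPd
  have hP : ∀ φ, Good φ → φ ∈ P := fun φ hφ => mem_filter.2 ⟨mem_univ _, hφ⟩
  have hpos : 0 < P.card := by
    obtain ⟨φ, hφ⟩ := exists_good (E := E) hV h16
    exact card_pos.2 ⟨φ, hP φ hφ⟩
  let Q : ℕ → ℕ → Finset (V → V → E) := fun a b => univ.filter fun φ =>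
    Good φ ∧ ∃ y : Module.Dual (ZMod 2) E, y ≠ 0 ∧ ∃ A B : Finset V, Disjoint A B ∧
      A.card = a ∧ B.card = b ∧ ∀ x ∈ A, ∀ w ∈ B, y (φ x w) = 0
  have hQ : ∀ a b, a + b < Fintype.card V → 2 * (2 ^ (Fintype.card V - 2) *
      (Fintype.card V).choose a * (Fintype.card V).choose b * 32 ^ a) < 2 ^ (a * b) →
      2 * (Q a b).card < P.card := by
    intro a b hab h1
    have h2 := union_bound hV h16 a b hab P (Q a b) hP fun φ hφ => (mem_filter.1 hφ).2
    have h3 := Nat.mul_lt_mul_of_pos_right h1 hpos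
    refine Nat.lt_of_mul_lt_mul_left (a := 2 ^ (a * b)) ?_
    calc 2 ^ (a * b) * (2 * (Q a b).card) = 2 * (2 ^ (a * b) * (Q a b).card) := by ring
      _ ≤ _ := Nat.mul_le_mul_left _ h2
      _ < _ := by rw [← mul_assoc]; exact h3
  have h1 := hQ s s (by omega) hs2
  have h2 := hQ 2 (Fintype.card V - 8 * s) (by omega) hs3
  obtain ⟨φ, hφ, hφ'⟩ : ∃ φ ∈ P, φ ∉ Q s s ∪ Q 2 (Fintype.card V - 8 * s) := by
    refine exists_mem_notMem_of_card_lt_card ?_
    have := card_union_le (Q s s) (Q 2 (Fintype.card V - 8 * s))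
    omega
  have hg : Good φ := (mem_filter.1 hφ).2
  rw [mem_union, not_or] at hφ'
  have hsep : ∀ a b, φ ∉ Q a b → ∀ y, y ≠ 0 → Sep (Gr hg y) a b := by
    intro a b h y hy A B hd hA hB
    by_contra hc
    push Not at hc
    refine h (mem_filter.2 ⟨mem_univ _, hg, y, hy, A, B, hd, hA, hB, fun x hx w hw => ?_⟩)
    by_contra h'
    exact hc x hx w hw h'
  exact ⟨φ, hg, fun y hy =>
    ham_of_sep hs1 hs8 (hsep _ _ hφ'.1 y hy) (hsep _ _ hφ'.2 y hy) (Gr_two hg hy)⟩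

theorem code_exists (n : ℕ) (hn : 2 ^ 18 ≤ n) : ∃ F : Finset (SimpleGraph (Fin n)),
    (∀ G ∈ F, ∀ H ∈ F, G ∆ H ∈ F) ∧ F.card = 2 ^ (n - 2) ∧
      ∀ G ∈ F, ∀ H ∈ F, G ≠ H → (G ∆ H).IsHamiltonian := by
  classical
  have hr : Module.finrank (ZMod 2) (Fin (n - 2) → ZMod 2) = n - 2 := by simp
  obtain ⟨φ, hφ, h⟩ := exists_good_ham (V := Fin n) (E := Fin (n - 2) → ZMod 2)
    (by rw [hr, Fintype.card_fin]; omega) (by rwa [Fintype.card_fin])
  have : Finite (Module.Dual (ZMod 2) (Fin (n - 2) → ZMod 2)) :=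
    Finite.of_injective (fun f : Module.Dual (ZMod 2) (Fin (n - 2) → ZMod 2) =>
      (f : (Fin (n - 2) → ZMod 2) → ZMod 2)) DFunLike.coe_injective
  have : Fintype (Module.Dual (ZMod 2) (Fin (n - 2) → ZMod 2)) := Fintype.ofFinite _
  have hD : Fintype.card (Module.Dual (ZMod 2) (Fin (n - 2) → ZMod 2)) = 2 ^ (n - 2) := by
    rw [card_E, Subspace.dual_finrank_eq, hr]
  have hinj : Function.Injective (Gr hφ) := by
    intro y y' hyy
    by_contra hc
    obtain ⟨a, -, -, ha, -⟩ := Gr_two hφ (fun h' => hc (dual_eq_of_add h')) ⟨0, by omega⟩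
    rw [← Gr_symmDiff, hyy, symmDiff_self] at ha
    exact ha
  refine ⟨univ.image (Gr hφ), fun G hG H hH => ?_, ?_, fun G hG H hH hne => ?_⟩
  · obtain ⟨y, -, rfl⟩ := mem_image.1 hG
    obtain ⟨y', -, rfl⟩ := mem_image.1 hH
    rw [Gr_symmDiff]
    exact mem_image_of_mem _ (mem_univ _)
  · rw [card_image_of_injective _ hinj, card_univ, hD]
  · obtain ⟨y, -, rfl⟩ := mem_image.1 hG
    obtain ⟨y', -, rfl⟩ := mem_image.1 hH
    rw [Gr_symmDiff]
    exact h _ fun h' => hne (by rw [dual_eq_of_add h'])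

theorem code_le (h3 : 3 ≤ Fintype.card V) (F : Finset (SimpleGraph V))
    (hF : ∀ G ∈ F, ∀ H ∈ F, G ≠ H → (G ∆ H).IsHamiltonian) :
    F.card ≤ 2 ^ (Fintype.card V - 2) := by
  classical
  obtain ⟨v, t, hvt⟩ : ∃ v t : V, v ≠ t := Fintype.exists_pair_of_one_lt_card (by omega)
  have h1 : (Out v t).card = Fintype.card V - 2 := by
    have := card_Out hvt
    omega
  rw [← h1, ← card_powerset]
  refine card_le_card_of_injOn (fun G => (Out v t).filter fun w => G.Adj v w)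
    (fun G _ => mem_powerset.2 (filter_subset _ _)) fun G hG H hH hGH => ?_
  by_contra hc
  obtain ⟨w, hwt, hw⟩ := ham_nbr (hF G hG H hH hc) h3 v t
  have h2 : w ∈ Out v t := mem_Out.2 ⟨hwt, hw.ne'⟩
  have h4 : G.Adj v w ↔ H.Adj v w := by
    have := Finset.ext_iff.1 hGH w
    simpa [h2] using this
  simp only [symmDiff_def, sup_adj, sdiff_adj] at hw
  tauto

end Pool.Agent.Lib.MP_12b84a_co.HC
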