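import Pool.Agent.Lib.MP_12b84a_co.HC.Star

/-!
Good labellings of the complete graph (symmetric, zero row sums, every row spanning) and the
bound on the proportion of good labellings on which a functional kills a complete bipartite pattern.
-/

set_option autoImplicit false
set_option linter.unusedSectionVars false

namespace Pool.Agent.Lib.MP_12b84a_co.HC

open Finset

variable {E : Type*} [AddCommGroup E] [Module (ZMod 2) E] [Fintype E]
  {V : Type*} [Fintype V] [DecidableEq V]

/-- Good labellings. -/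
structure Good (φ : V → V → E) : Prop where
  symm : ∀ x y, φ x y = φ y x
  diag : ∀ x, φ x x = 0
  sum : ∀ x, ∑ y, φ x y = 0
  span : ∀ x, ∀ y : Module.Dual (ZMod 2) E, y ≠ 0 → ∃ w, y (φ x w) ≠ 0

/-- The vertices other than `v` and `t`. -/
def Out (v t : V) : Finset V := (univ.erase v).erase t

theorem mem_Out {v t x : V} : x ∈ Out v t ↔ x ≠ t ∧ x ≠ v := by simp [Out]

theorem v_not_Out (v t : V) : v ∉ Out v t := by simp [Out]

theorem t_not_Out (v t : V) : t ∉ Out v t := by simp [Out]

theorem tri (v t x : V) : x ∈ Out v t ∨ x = v ∨ x = t := by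
  rw [mem_Out]; tauto

theorem sum_split {v t : V} (hvt : v ≠ t) (f : V → E) :
    ∑ y, f y = ∑ y ∈ Out v t, f y + f v + f t := by
  have h1 := add_sum_erase univ f (mem_univ v)
  have h2 := add_sum_erase (univ.erase v) f (mem_erase.2 ⟨hvt.symm, mem_univ t⟩)
  rw [← h1, ← h2, Out]
  abel

theorem card_Out {v t : V} (hvt : v ≠ t) : (Out v t).card + 2 = Fintype.card V := by
  have h1 : t ∈ univ.erase v := mem_erase.2 ⟨hvt.symm, mem_univ t⟩
  have h2 := card_erase_add_one h1
  have h3 := card_erase_add_one (mem_univ v)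
  rw [card_univ] at h3
  rw [Out]
  omega

theorem add_self' (x : E) : x + x = 0 := ZModModule.add_self x

theorem eq_of_add' {x y : E} (h : x + y = 0) : x = y := by
  have : x + y + y = y := by rw [h, zero_add]
  rwa [add_assoc, add_self', add_zero] at this

/-- Data of a labelling away from `v` and `t` whose rows have corank one. -/
structure Outside (v t : V) (ψ : V → V → E) (lam : Out v t → Module.Dual (ZMod 2) E) : Prop where
  symm : ∀ x ∈ Out v t, ∀ y ∈ Out v t, ψ x y = ψ y x
  diag : ∀ x ∈ Out v t, ψ x x = 0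
  ne : ∀ w, lam w ≠ 0
  van : ∀ w : Out v t, ∀ x ∈ Out v t, lam w (ψ w x) = 0
  uniq : ∀ w : Out v t, ∀ y : Module.Dual (ZMod 2) E, y ≠ 0 →
    (∀ x ∈ Out v t, y (ψ w x) = 0) → y = lam w

/-- Row sums away from `v` and `t`. -/
def rr (v t : V) (ψ : V → V → E) (w : V) : E := ∑ x ∈ Out v t, ψ w x

theorem sum_rr {v t : V} {ψ : V → V → E} {lam : Out v t → Module.Dual (ZMod 2) E}
    (h : Outside v t ψ lam) : ∑ w ∈ Out v t, rr v t ψ w = 0 := by
  unfold rr
  rw [← sum_product' (Out v t) (Out v t) (fun w x => ψ w x)]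
  refine sum_involution (fun a _ => a.swap) (fun a ha => ?_) (fun a ha h0 h1 => h0 ?_)
    (fun a ha => ?_) (fun a _ => rfl)
  · rw [mem_product] at ha
    simp only [Prod.fst_swap, Prod.snd_swap]
    rw [h.symm _ ha.1 _ ha.2, add_self']
  · rw [mem_product] at ha
    have : a.2 = a.1 := congrArg Prod.fst h1
    rw [this, h.diag _ ha.1]
  · rw [mem_product] at ha ⊢
    exact ⟨ha.2, ha.1⟩

theorem lam_rr {v t : V} {ψ : V → V → E} {lam : Out v t → Module.Dual (ZMod 2) E}
    (h : Outside v t ψ lam) (w : Out v t) : lam w (rr v t ψ w) = 0 := by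
  unfold rr
  rw [map_sum]
  exact sum_eq_zero fun x hx => h.van w x hx

/-- The labelling with prescribed values away from `v`, `t` and on the star of `v`. -/
def build (v t : V) (ψ : V → V → E) (Z : V → E) : V → V → E := fun x y =>
  if x ∈ Out v t then
    (if y ∈ Out v t then ψ x y else if y = v then Z x else Z x + rr v t ψ x)
  else if y ∈ Out v t then (if x = v then Z y else Z y + rr v t ψ y)
  else if x = y then 0 else ∑ w ∈ Out v t, Z w

theorem build_good {v t : V} (hvt : v ≠ t) {ψ : V → V → E}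
    {lam : Out v t → Module.Dual (ZMod 2) E} (h : Outside v t ψ lam) (Z : V → E)
    (h1 : ∀ w : Out v t, lam w (Z w) = 1)
    (h2 : ∀ y : Module.Dual (ZMod 2) E, y ≠ 0 → ∃ w : Out v t, y (Z w) ≠ 0)
    (h3 : ∀ y : Module.Dual (ZMod 2) E, y ≠ 0 → ∃ w : Out v t, y (Z w + rr v t ψ w) ≠ 0) :
    Good (build v t ψ Z) := by
  have hv := v_not_Out v t
  have ht := t_not_Out v t
  have htv := hvt.symm
  refine ⟨fun x y => ?_, fun x => ?_, fun x => ?_, fun x y hy => ?_⟩
  · rcases tri v t x with hx | hx | hx <;> rcases tri v t y with hy | hy | hy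
    · simp only [build, hx, hy, if_true]; exact h.symm x hx y hy
    all_goals simp [build, hx, hy, hv, ht, hvt, htv]
  · rcases tri v t x with hx | rfl | rfl
    · simp only [build, hx, if_true]; exact h.diag x hx
    all_goals simp_all [build]
  · rw [sum_split hvt]
    rcases tri v t x with hx | rfl | rfl
    · have e1 : ∑ y ∈ Out v t, build v t ψ Z x y = rr v t ψ x :=
        sum_congr rfl fun y hy => by simp only [build, hx, hy, if_true]
      have e2 : build v t ψ Z x v = Z x := by simp [build, hx, hv]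
      have e3 : build v t ψ Z x t = Z x + rr v t ψ x := by simp [build, hx, ht, htv]
      rw [e1, e2, e3, add_comm (Z x), add_self']
    · have e1 : ∑ y ∈ Out x t, build x t ψ Z x y = ∑ y ∈ Out x t, Z y :=
        sum_congr rfl fun y hy => by simp [build, hv, hy]
      have e2 : build x t ψ Z x x = 0 := by simp [build, hv]
      have e3 : build x t ψ Z x t = ∑ y ∈ Out x t, Z y := by simp [build, hv, ht, hvt]
      rw [e1, e2, e3, add_zero, add_self']
    · have e1 : ∑ y ∈ Out v x, build v x ψ Z x y = ∑ y ∈ Out v x, (Z y + rr v x ψ y) :=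
        sum_congr rfl fun y hy => by simp [build, ht, hy, htv]
      have e2 : build v x ψ Z x x = 0 := by simp [build, ht]
      have e3 : build v x ψ Z x v = ∑ y ∈ Out v x, Z y := by simp [build, hv, ht, htv]
      rw [e1, e2, e3, add_zero, sum_add_distrib, sum_rr h, add_zero, add_self']
  · rcases tri v t x with hx | rfl | rfl
    · by_cases hc : ∀ w ∈ Out v t, y (ψ x w) = 0
      · have e1 := h.uniq ⟨x, hx⟩ y hy hc
        refine ⟨v, ?_⟩
        have e2 : build v t ψ Z x v = Z x := by simp [build, hx, hv]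
        rw [e2, e1, h1 ⟨x, hx⟩]
        exact one_ne_zero
      · push Not at hc
        obtain ⟨w, hw, hw'⟩ := hc
        exact ⟨w, by simpa only [build, hx, hw, if_true] using hw'⟩
    · obtain ⟨w, hw⟩ := h2 y hy
      exact ⟨w, by simpa [build, hv, w.2] using hw⟩
    · obtain ⟨w, hw⟩ := h3 y hy
      refine ⟨w, ?_⟩
      have e1 : build v x ψ Z x w = Z w + rr v x ψ w := by simp [build, ht, w.2, htv]
      rwa [e1]

theorem fib_lower {v t : V} (hvt : v ≠ t) {ψ : V → V → E}
    {lam : Out v t → Module.Dual (ZMod 2) E} (h : Outside v t ψ lam)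
    (hV : Fintype.card V = Module.finrank (ZMod 2) E + 2) (h16 : 16 ≤ Module.finrank (ZMod 2) E)
    (F : Finset (V → V → E))
    (hF : ∀ φ, Good φ → (∀ x ∈ Out v t, ∀ y ∈ Out v t, φ x y = ψ x y) → φ ∈ F) :
    (Om lam).card ≤ 32 * F.card := by
  have hι : Fintype.card (Out v t) = Module.finrank (ZMod 2) E := by
    have := card_Out hvt
    rw [Fintype.card_coe]
    omega
  have hs : ∑ w : Out v t, rr v t ψ w = 0 := by
    rw [sum_coe_sort (Out v t) (rr v t ψ)]; exact sum_rr h
  refine (star_bound (r := fun w : Out v t => rr v t ψ w) h.ne (lam_rr h) hs hι (by omega)).trans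
    (Nat.mul_le_mul_left _ ?_)
  let X : (Out v t → E) → V → E := fun z w => if hw : w ∈ Out v t then z ⟨w, hw⟩ else 0
  have hX : ∀ z (w : Out v t), X z w = z w := fun z w => by simp [X, w.2]
  refine card_le_card_of_injOn (fun z => build v t ψ (X z)) (fun z hz => ?_)
    (fun z _ z' _ hzz => ?_)
  · obtain ⟨a, b, c⟩ := mem_Ind.1 hz
    refine hF _ (build_good hvt h _ (fun w => by rw [hX]; exact a w) (fun y hy => ?_)
      (fun y hy => ?_)) fun x hx y hy => by simp only [build, hx, hy, if_true]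
    · obtain ⟨w, hw⟩ := span_of_indep b hι y hy
      exact ⟨w, by rwa [hX]⟩
    · obtain ⟨w, hw⟩ := span_of_indep c hι y hy
      exact ⟨w, by rwa [hX]⟩
  · funext w
    have e := congrFun (congrFun hzz v) w
    simp only [build, v_not_Out, w.2, if_true, if_false] at e
    rwa [hX, hX] at e

theorem good_t {v t : V} (hvt : v ≠ t) {φ : V → V → E} (hφ : Good φ) (x : V) :
    φ x t = φ x v + rr v t φ x := by
  have h := hφ.sum x
  rw [sum_split hvt] at h
  rw [← eq_of_add' h, add_comm]
  rfl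

theorem fib_upper {v t : V} (hvt : v ≠ t) {ψ : V → V → E}
    {lam : Out v t → Module.Dual (ZMod 2) E} (h : Outside v t ψ lam)
    {y : Module.Dual (ZMod 2) E} (hy : y ≠ 0) (B : Finset V) (hB : B ⊆ Out v t)
    (F : Finset (V → V → E))
    (hF : ∀ φ ∈ F, Good φ ∧ (∀ x ∈ Out v t, ∀ y ∈ Out v t, φ x y = ψ x y) ∧
      ∀ w ∈ B, y (φ v w) = 0) :
    2 ^ B.card * F.card ≤ (Om lam).card := by
  classical
  let C : Out v t → Finset E := fun w => univ.filter fun x => lam w x = 1 ∧ (w.1 ∈ B → y x = 0)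
  let e : Out v t → ℕ := fun w => if w.1 ∈ B then 1 else 0
  have he : ∑ w, e w = B.card := by
    rw [show (∑ w, e w) = ∑ w ∈ Out v t, (if w ∈ B then 1 else 0) from
      sum_coe_sort (Out v t) (fun w => if w ∈ B then 1 else 0), ← card_filter,
      filter_mem_eq_inter, inter_eq_right.2 hB]
  have h1 : 2 ^ (∑ w, e w) * (Fintype.piFinset C).card ≤ (Om lam).card := by
    refine pi_le _ _ e fun w => ?_
    by_cases hw : w.1 ∈ B
    · have : e w = 1 := by simp [e, hw]
      rw [this, pow_one]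
      exact hyp_half hy _ fun x hx => ⟨(mem_filter.1 hx).2.1, (mem_filter.1 hx).2.2 hw⟩
    · have : e w = 0 := by simp [e, hw]
      rw [this, pow_zero, one_mul]
      exact card_le_card fun x hx => mem_hyp.2 (mem_filter.1 hx).2.1
  rw [he] at h1
  refine le_trans (Nat.mul_le_mul_left _ ?_) h1
  have hr : ∀ φ ∈ F, ∀ x ∈ Out v t, rr v t φ x = rr v t ψ x := fun φ hφ x hx =>
    sum_congr rfl fun w hw => (hF φ hφ).2.1 x hx w hw
  refine card_le_card_of_injOn (fun φ => fun w : Out v t => φ v w) (fun φ hφ => ?_)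
    (fun φ hφ φ' hφ' hh => ?_)
  · obtain ⟨a, b, c⟩ := hF φ hφ
    refine Fintype.mem_piFinset.2 fun w => mem_filter.2 ⟨mem_univ _, ?_, c w⟩
    obtain ⟨x, hx⟩ := a.span w (lam w) (h.ne w)
    refine z2_ne ?_
    rcases tri v t x with hx' | rfl | rfl
    · rw [b _ w.2 _ hx', h.van w x hx'] at hx
      exact absurd rfl hx
    · rwa [a.symm] at hx
    · rwa [good_t hvt a, hr φ hφ _ w.2, map_add, lam_rr h, add_zero, a.symm] at hx
  · obtain ⟨a, b, -⟩ := hF φ hφ
    obtain ⟨a', b', -⟩ := hF φ' hφ'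
    have e1 : ∀ w ∈ Out v t, φ v w = φ' v w := fun w hw => congrFun hh ⟨w, hw⟩
    have e2 : ∀ w ∈ Out v t, φ w t = φ' w t := fun w hw => by
      rw [good_t hvt a, good_t hvt a', hr φ hφ w hw, hr φ' hφ' w hw, a.symm, e1 w hw, a'.symm]
    have e3 : φ v t = φ' v t := by
      rw [good_t hvt a, good_t hvt a', a.diag, a'.diag]
      exact congrArg _ (sum_congr rfl e1)
    funext x w
    rcases tri v t x with hx | hx | hx <;> rcases tri v t w with hw | hw | hw
    · rw [b x hx w hw, b' x hx w hw]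
    · rw [hw, a.symm, e1 x hx, a'.symm]
    · rw [hw]; exact e2 x hx
    · rw [hx]; exact e1 w hw
    · rw [hx, hw, a.diag, a'.diag]
    · rw [hx, hw]; exact e3
    · rw [hx, a.symm, e2 w hw, a'.symm]
    · rw [hx, hw, a.symm, e3, a'.symm]
    · rw [hx, hw, a.diag, a'.diag]

theorem exists_lam {v t : V} (hvt : v ≠ t) {φ : V → V → E} (hφ : Good φ)
    (hV : Fintype.card V = Module.finrank (ZMod 2) E + 2) :
    ∃ lam, Outside v t φ lam := by
  have h1 : ∀ w : Out v t, ∃ m : Module.Dual (ZMod 2) E, m ≠ 0 ∧ ∀ x ∈ Out v t, m (φ w x) = 0 := by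
    intro w
    have h2 : ((Out v t).erase w).card < Module.finrank (ZMod 2) E := by
      have h3 := card_Out hvt
      have h4 := card_erase_lt_of_mem w.2
      omega
    obtain ⟨m, hm, hm'⟩ := exists_ann (φ w) _ h2
    refine ⟨m, hm, fun x hx => ?_⟩
    by_cases hxw : x = w
    · rw [hxw, hφ.diag, map_zero]
    · exact hm' _ (Submodule.subset_span ⟨x, by simp [hxw, hx], rfl⟩)
  choose lam hne hvan using h1
  have h2 : ∀ w : Out v t, ∀ y : Module.Dual (ZMod 2) E, y ≠ 0 →
      (∀ x ∈ Out v t, y (φ w x) = 0) → y (φ w v) = 1 := by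
    intro w y hy hy'
    obtain ⟨x, hx⟩ := hφ.span w y hy
    refine z2_ne ?_
    rcases tri v t x with hx' | rfl | rfl
    · exact absurd (hy' x hx') hx
    · exact hx
    · have h3 : y (rr v x φ w) = 0 := by
        unfold rr
        rw [map_sum]
        exact sum_eq_zero hy'
      rwa [good_t hvt hφ, map_add, h3, add_zero] at hx
  refine ⟨lam, fun x _ y _ => hφ.symm x y, fun x _ => hφ.diag x, hne, hvan, fun w y hy hy' => ?_⟩
  by_contra hc
  have h3 := h2 w (y + lam w) (fun h => hc (dual_eq_of_add h)) fun x hx => by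
    rw [LinearMap.add_apply, hy' x hx, hvan w x hx, add_zero]
  rw [LinearMap.add_apply, h2 w y hy hy', h2 w _ (hne w) (hvan w)] at h3
  exact absurd h3 (by decide)

open Classical in
/-- Good labellings on which `y` vanishes between `A` and `B`. -/
noncomputable def GE (y : Module.Dual (ZMod 2) E) (A B : Finset V) : Finset (V → V → E) :=
  univ.filter fun φ => Good φ ∧ ∀ a ∈ A, ∀ w ∈ B, y (φ a w) = 0

theorem mem_GE {y : Module.Dual (ZMod 2) E} {A B : Finset V} {φ : V → V → E} :
    φ ∈ GE y A B ↔ Good φ ∧ ∀ a ∈ A, ∀ w ∈ B, y (φ a w) = 0 := by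
  classical
  unfold GE
  simp only [mem_filter, mem_univ, true_and]

theorem ge_step (hV : Fintype.card V = Module.finrank (ZMod 2) E + 2)
    (h16 : 16 ≤ Module.finrank (ZMod 2) E) {y : Module.Dual (ZMod 2) E} (hy : y ≠ 0)
    {v t : V} (hvt : v ≠ t) (A B : Finset V) (hA : A ⊆ Out v t) (hB : B ⊆ Out v t) :
    2 ^ B.card * (GE y (insert v A) B).card ≤ 32 * (GE y A B).card := by
  classical
  refine fibre_le _ _ (fun φ => fun (x : Out v t) (w : Out v t) => φ x w) _ _ fun ψ hψ => ?_
  obtain ⟨hg, hz⟩ := mem_GE.1 hψ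
  obtain ⟨lam, hlam⟩ := exists_lam hvt hg hV
  refine (fib_upper hvt hlam hy B hB _ fun φ hφ => ?_).trans
    (fib_lower hvt hlam hV h16 _ fun φ hφ hag => ?_)
  · obtain ⟨h1, h2⟩ := mem_filter.1 hφ
    obtain ⟨h3, h4⟩ := mem_GE.1 h1
    exact ⟨h3, fun x hx w hw => congrFun (congrFun h2 ⟨x, hx⟩) ⟨w, hw⟩,
      h4 v (mem_insert_self _ _)⟩
  · refine mem_filter.2 ⟨mem_GE.2 ⟨hφ, fun a ha w hw => ?_⟩, ?_⟩
    · rw [hag a (hA ha) w (hB hw)]
      exact hz a (mem_insert_of_mem ha) w hw
    · funext x w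
      exact hag x x.2 w w.2

theorem ge_iter (hV : Fintype.card V = Module.finrank (ZMod 2) E + 2)
    (h16 : 16 ≤ Module.finrank (ZMod 2) E) {y : Module.Dual (ZMod 2) E} (hy : y ≠ 0)
    (t : V) (B : Finset V) (htB : t ∉ B) (A : Finset V) (htA : t ∉ A) (hAB : Disjoint A B) :
    2 ^ (A.card * B.card) * (GE y A B).card ≤ 32 ^ A.card * (GE y ∅ B).card := by
  induction A using Finset.induction_on with
  | empty => simp
  | insert v A hv ih =>
    rw [mem_insert, not_or] at htA
    rw [disjoint_insert_left] at hAB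
    have h1 := ih htA.2 hAB.2
    have h2 := ge_step hV h16 hy (Ne.symm htA.1) A B
      (fun x hx => mem_Out.2 ⟨fun h => htA.2 (h ▸ hx), fun h => hv (h ▸ hx)⟩)
      (fun x hx => mem_Out.2 ⟨fun h => htB (h ▸ hx), fun h => hAB.1 (h ▸ hx)⟩)
    rw [card_insert_of_notMem hv, add_mul, one_mul, pow_add, pow_succ]
    calc 2 ^ (A.card * B.card) * 2 ^ B.card * (GE y (insert v A) B).card
        = 2 ^ (A.card * B.card) * (2 ^ B.card * (GE y (insert v A) B).card) := by ring
      _ ≤ 2 ^ (A.card * B.card) * (32 * (GE y A B).card) := Nat.mul_le_mul_left _ h2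
      _ = 32 * (2 ^ (A.card * B.card) * (GE y A B).card) := by ring
      _ ≤ 32 * (32 ^ A.card * (GE y ∅ B).card) := Nat.mul_le_mul_left _ h1
      _ = _ := by ring

theorem exists_good (hV : Fintype.card V = Module.finrank (ZMod 2) E + 2)
    (h16 : 16 ≤ Module.finrank (ZMod 2) E) : ∃ φ : V → V → E, Good φ := by
  classical
  obtain ⟨v, t, hvt⟩ : ∃ v t : V, v ≠ t := Fintype.exists_pair_of_one_lt_card (by omega)
  set N := Module.finrank (ZMod 2) E with hN
  have : NeZero N := ⟨by omega⟩
  have hι : Fintype.card (Out v t) = Fintype.card (ZMod N) := by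
    have := card_Out hvt
    rw [Fintype.card_coe, ZMod.card]
    omega
  let e : Out v t ≃ ZMod N := Fintype.equivOfCardEq hι
  let b : Module.Basis (ZMod N) (ZMod 2) E :=
    (Module.finBasis (ZMod 2) E).reindex
      (Fintype.equivOfCardEq (by rw [ZMod.card, Fintype.card_fin]))
  let ψ : V → V → E := fun x w =>
    if h : x ∈ Out v t ∧ w ∈ Out v t ∧ x ≠ w then b (e ⟨x, h.1⟩ + e ⟨w, h.2.1⟩) else 0
  have hψ : ∀ x w : Out v t, x ≠ w → ψ x w = b (e x + e w) := fun x w h => by
    have h' : x.1 ≠ w.1 := fun h' => h (Subtype.ext h')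
    simp [ψ, x.2, w.2, h']
  have hψ0 : ∀ x, ψ x x = 0 := fun x => by simp [ψ]
  have hO : Outside v t ψ (fun w => b.coord (e w + e w)) := by
    refine ⟨fun x hx w hw => ?_, fun x _ => hψ0 x, fun w h => ?_, fun w x hx => ?_,
      fun w y hy hy' => ?_⟩
    · by_cases h : x = w
      · rw [h]
      · have h' : (⟨x, hx⟩ : Out v t) ≠ ⟨w, hw⟩ := fun h' => h (congrArg Subtype.val h')
        rw [hψ ⟨x, hx⟩ ⟨w, hw⟩ h', hψ ⟨w, hw⟩ ⟨x, hx⟩ h'.symm, add_comm]
    · have := LinearMap.congr_fun h (b (e w + e w))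
      simp at this
    · by_cases h : w = ⟨x, hx⟩
      · rw [h, hψ0, map_zero]
      · rw [hψ w ⟨x, hx⟩ h]
        have h2 : e w + e ⟨x, hx⟩ ≠ e w + e w := fun h2 =>
          h (e.injective (add_left_cancel h2)).symm
        simp [Finsupp.single_apply, h2]
    · have h2 : ∀ k, k ≠ e w + e w → y (b k) = 0 := fun k hk => by
        have h3 : w ≠ e.symm (k - e w) := fun h3 => hk (by
          have := congrArg e h3
          rw [Equiv.apply_symm_apply] at this
          rw [eq_sub_iff_add_eq] at this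
          exact this.symm)
        have h4 := hy' _ (e.symm (k - e w)).2
        rwa [hψ w _ h3, Equiv.apply_symm_apply, add_sub_cancel] at h4
      have h3 : y (b (e w + e w)) = 1 := z2_ne fun h3 => hy (b.ext fun k => by
        by_cases hk : k = e w + e w
        · rw [hk, h3]; rfl
        · rw [h2 k hk]; rfl)
      refine b.ext fun k => ?_
      by_cases hk : k = e w + e w
      · rw [hk, h3]; simp
      · rw [h2 k hk]; simp [Finsupp.single_apply, hk]
  have h1 := fib_lower hvt hO hV h16 (univ.filter fun φ => Good φ)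
    fun φ hφ _ => mem_filter.2 ⟨mem_univ _, hφ⟩
  have h2 : 0 < (Om (fun w : Out v t => b.coord (e w + e w))).card := by
    refine card_pos.2 ⟨fun w => b (e w + e w), mem_Om.2 fun w => by simp⟩
  obtain ⟨φ, hφ⟩ : (univ.filter fun φ : V → V → E => Good φ).Nonempty := card_pos.1 (by omega)
  exact ⟨φ, (mem_filter.1 hφ).2⟩

end Pool.Agent.Lib.MP_12b84a_co.HC
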