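import Pool.Agent.Lib.MP_12b84a_co.HC.Count

/-!
Resampling one star: if `z w` is chosen uniformly in an affine hyperplane for each `w`, then with
probability at least `1 / 32` both families `z w` and `z w + r w` are bases.
-/

set_option autoImplicit false
set_option linter.unusedSectionVars false

namespace Pool.Agent.Lib.MP_12b84a_co.HC

open Finset

variable {E : Type*} [AddCommGroup E] [Module (ZMod 2) E] [Fintype E]
  {ι : Type*} [Fintype ι] [DecidableEq ι]

/-- The product of the affine hyperplanes. -/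
noncomputable def Om (lam : ι → Module.Dual (ZMod 2) E) : Finset (ι → E) :=
  Fintype.piFinset fun w => hyp (lam w)

theorem mem_Om {lam : ι → Module.Dual (ZMod 2) E} {z : ι → E} :
    z ∈ Om lam ↔ ∀ w, lam w (z w) = 1 := by
  simp [Om, Fintype.mem_piFinset, mem_hyp]

open Classical in
/-- Points where both families are independent on `S`. -/
noncomputable def Ind (lam : ι → Module.Dual (ZMod 2) E) (r : ι → E) (S : Finset ι) :
    Finset (ι → E) :=
  (Om lam).filter fun z => LinearIndepOn (ZMod 2) z (S : Set ι) ∧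
    LinearIndepOn (ZMod 2) (fun w => z w + r w) (S : Set ι)

theorem mem_Ind {lam : ι → Module.Dual (ZMod 2) E} {r : ι → E} {S : Finset ι} {z : ι → E} :
    z ∈ Ind lam r S ↔ (∀ w, lam w (z w) = 1) ∧ LinearIndepOn (ZMod 2) z (S : Set ι) ∧
      LinearIndepOn (ZMod 2) (fun w => z w + r w) (S : Set ι) := by
  classical
  unfold Ind
  simp only [mem_filter, mem_Om]

theorem Ind_subset (lam : ι → Module.Dual (ZMod 2) E) (r : ι → E) (S : Finset ι) :
    Ind lam r S ⊆ Om lam := fun _ hz => mem_Om.2 (mem_Ind.1 hz).1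

theorem indep_insert {f g : ι → E} {S : Finset ι} {w : ι} (hf : LinearIndepOn (ZMod 2) f (S : Set ι))
    (hfg : ∀ i ∈ S, f i = g i) (hx : g w ∉ Submodule.span (ZMod 2) (f '' (S : Set ι))) :
    LinearIndepOn (ZMod 2) g ((insert w S : Finset ι) : Set ι) := by
  have h1 : Set.EqOn f g (S : Set ι) := fun i hi => hfg i hi
  rw [coe_insert]
  refine (hf.congr h1).insert ?_
  rwa [← h1.image_eq]

theorem upd_mem {lam : ι → Module.Dual (ZMod 2) E} {r : ι → E} {S : Finset ι} {z : ι → E} {w : ι}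
    {x : E} (hz : z ∈ Ind lam r S) (hw : w ∉ S) (hx : lam w x = 1)
    (h1 : x ∉ Submodule.span (ZMod 2) (z '' (S : Set ι)))
    (h2 : x + r w ∉ Submodule.span (ZMod 2) ((fun i => z i + r i) '' (S : Set ι))) :
    Function.update z w x ∈ Ind lam r (insert w S) := by
  obtain ⟨a, b, c⟩ := mem_Ind.1 hz
  have hu : ∀ i ∈ S, z i = Function.update z w x i := fun i hi =>
    (Function.update_of_ne (fun h : i = w => hw (h ▸ hi)) _ _).symm
  refine mem_Ind.2 ⟨fun i => ?_, indep_insert b hu (by simpa using h1),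
    indep_insert c (fun i hi => by rw [← hu i hi]) (by simpa using h2)⟩
  by_cases hi : i = w
  · subst hi; simpa using hx
  · rw [Function.update_of_ne hi]; exact a i

theorem ind_step {lam : ι → Module.Dual (ZMod 2) E} {r : ι → E} (hr : ∀ w, lam w (r w) = 0)
    (S : Finset ι) (w : ι) (hw : w ∉ S) :
    ((hyp (lam w)).card - 2 ^ S.card) * (Ind lam r S).card
      ≤ (hyp (lam w)).card * (Ind lam r (insert w S)).card := by
  classical
  refine coord_le _ _ w _ _ (fun z hz => mem_hyp.2 ((mem_Ind.1 hz).1 w)) fun z hz => ?_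
  set U := Submodule.span (ZMod 2) (z '' (S : Set ι))
  set U' := Submodule.span (ZMod 2) ((fun i => z i + r i) '' (S : Set ι))
  set B1 := (hyp (lam w)).filter (fun x => x ∈ U)
  set B2 := (hyp (lam w)).filter (fun x => x + r w ∈ U')
  have h1 : 2 * B1.card ≤ 2 ^ S.card :=
    span_half (lam w) U _ (finrank_span_image_le z S) B1
      fun x hx => ⟨mem_hyp.1 (mem_filter.1 hx).1, (mem_filter.1 hx).2⟩
  have h2 : 2 * B2.card ≤ 2 ^ S.card := by
    rw [← card_image_of_injective B2 (add_left_injective (r w))]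
    refine span_half (lam w) U' _ (finrank_span_image_le _ S) _ fun x hx => ?_
    obtain ⟨y, hy, rfl⟩ := mem_image.1 hx
    refine ⟨?_, (mem_filter.1 hy).2⟩
    rw [map_add, mem_hyp.1 (mem_filter.1 hy).1, hr, add_zero]
  refine ⟨hyp (lam w) \ (B1 ∪ B2), ?_, fun x hx => ?_⟩
  · have h3 := le_card_sdiff (B1 ∪ B2) (hyp (lam w))
    have h4 := card_union_le B1 B2
    omega
  · obtain ⟨hx1, hx2⟩ := mem_sdiff.1 hx
    rw [mem_union, not_or] at hx2
    exact upd_mem hz hw (mem_hyp.1 hx1) (fun h => hx2.1 (mem_filter.2 ⟨hx1, h⟩))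
      (fun h => hx2.2 (mem_filter.2 ⟨hx1, h⟩))

theorem ind_bound {lam : ι → Module.Dual (ZMod 2) E} {r : ι → E} (hr : ∀ w, lam w (r w) = 0)
    (h : ℕ) (hh : ∀ w, (hyp (lam w)).card = h) (S : Finset ι) :
    h * (Om lam).card ≤ h * (Ind lam r S).card + 2 ^ S.card * (Om lam).card := by
  induction S using Finset.induction_on with
  | empty =>
    have : (Om lam).card ≤ (Ind lam r ∅).card :=
      card_le_card fun z hz => mem_Ind.2 ⟨mem_Om.1 hz, by simp, by simp⟩
    exact (Nat.mul_le_mul_left _ this).trans (Nat.le_add_right _ _)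
  | insert w S hw ih =>
    have h1 := ind_step hr S w hw
    rw [hh] at h1
    have h2 : (Ind lam r S).card ≤ (Om lam).card := card_le_card (Ind_subset _ _ _)
    have h3 : h * (Ind lam r S).card ≤ (h - 2 ^ S.card) * (Ind lam r S).card
        + 2 ^ S.card * (Ind lam r S).card := by
      rw [← add_mul]; exact Nat.mul_le_mul_right _ (by omega)
    have h4 := Nat.mul_le_mul_left (2 ^ S.card) h2
    rw [card_insert_of_notMem hw, pow_succ]
    nlinarith

theorem ind_quarter {lam : ι → Module.Dual (ZMod 2) E} {r : ι → E} (hr : ∀ w, lam w (r w) = 0)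
    (k : ℕ) (hι : Fintype.card ι = k + 2) (hh : ∀ w, (hyp (lam w)).card = 2 * 2 ^ k) (l : ι) :
    (Om lam).card ≤ 4 * (Ind lam r (univ.erase l)).card := by
  have h0 : (univ.erase l).card = k + 1 := by rw [card_erase_of_mem (mem_univ _), card_univ, hι]; rfl
  obtain ⟨w, hw⟩ : (univ.erase l).Nonempty := card_pos.1 (by omega)
  have h1 : ((univ.erase l).erase w).card = k := by rw [card_erase_of_mem hw, h0]; rfl
  have h2 := ind_bound hr _ hh ((univ.erase l).erase w)
  have h3 := ind_step hr ((univ.erase l).erase w) w (notMem_erase _ _)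
  rw [insert_erase hw, hh, h1] at h3
  rw [h1] at h2
  have h4 : 2 * 2 ^ k - 2 ^ k = 2 ^ k := by omega
  rw [h4] at h3
  have h5 : 0 < 2 ^ k := by positivity
  have h6 : (Om lam).card ≤ 2 * (Ind lam r ((univ.erase l).erase w)).card :=
    Nat.le_of_mul_le_mul_left (by nlinarith) h5
  have h7 : (Ind lam r ((univ.erase l).erase w)).card ≤ 2 * (Ind lam r (univ.erase l)).card :=
    Nat.le_of_mul_le_mul_left (by nlinarith) h5
  omega

open Classical in
/-- The points for which the last step may be impossible. -/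
noncomputable def Bad (lam : ι → Module.Dual (ZMod 2) E) (r : ι → E) (l : ι) : Finset (ι → E) :=
  (Om lam).filter fun z => ∃ m : Module.Dual (ZMod 2) E, m ≠ 0 ∧ m ≠ lam l ∧ m (r l) = 0 ∧
    ∀ w, w ≠ l → m (z w) = 0 ∧ (m + lam l) (z w + r w) = 0

theorem mem_Bad {lam : ι → Module.Dual (ZMod 2) E} {r : ι → E} {l : ι} {z : ι → E} :
    z ∈ Bad lam r l ↔ (∀ w, lam w (z w) = 1) ∧
      ∃ m : Module.Dual (ZMod 2) E, m ≠ 0 ∧ m ≠ lam l ∧ m (r l) = 0 ∧
        ∀ w, w ≠ l → m (z w) = 0 ∧ (m + lam l) (z w + r w) = 0 := by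
  classical
  unfold Bad
  simp only [mem_filter, mem_Om]

theorem solve3 {l m k : Module.Dual (ZMod 2) E} {r : E} (hl : l ≠ 0) (hm : m ≠ 0) (hk : k ≠ 0)
    (hr : l r = 0) (h1 : k = m → k r = 0) (h2 : m ≠ l → k = l + m → k r = 1) :
    ∃ x, l x = 1 ∧ m x = 1 ∧ k (x + r) = 1 := by
  obtain ⟨x0, hx0⟩ := ex1 hl
  by_cases hml : m = l
  · subst hml
    by_cases hkl : k = m
    · exact ⟨x0, hx0, hx0, by rw [map_add, h1 hkl, hkl, hx0, add_zero]⟩
    · obtain ⟨d, hld, hkd⟩ := ex2 hk hkl
      rcases z2 (k (x0 + r)) with h | h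
      · refine ⟨x0 + d, by rw [map_add, hx0, hld, add_zero], by rw [map_add, hx0, hld, add_zero], ?_⟩
        rw [add_right_comm, map_add, h, hkd, zero_add]
      · exact ⟨x0, hx0, hx0, h⟩
  obtain ⟨x, hlx, hmx⟩ : ∃ x, l x = 1 ∧ m x = 1 := by
    obtain ⟨d, hld, hmd⟩ := ex2 hm hml
    rcases z2 (m x0) with h | h
    · exact ⟨x0 + d, by rw [map_add, hx0, hld, add_zero], by rw [map_add, h, hmd, zero_add]⟩
    · exact ⟨x0, hx0, h⟩
  by_cases hkl : k = l
  · exact ⟨x, hlx, hmx, by rw [hkl, map_add, hlx, hr, add_zero]⟩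
  by_cases hkm : k = m
  · exact ⟨x, hlx, hmx, by rw [map_add, h1 hkm, hkm, hmx, add_zero]⟩
  by_cases hklm : k = l + m
  · refine ⟨x, hlx, hmx, ?_⟩
    rw [map_add, h2 hml hklm, hklm, LinearMap.add_apply, hlx, hmx]
    decide
  obtain ⟨d, hld, hmd, hkd⟩ := ex3 hm hml hk hkl hkm hklm
  rcases z2 (k (x + r)) with h | h
  · refine ⟨x + d, by rw [map_add, hlx, hld, add_zero], by rw [map_add, hmx, hmd, add_zero], ?_⟩
    rw [add_right_comm, map_add, h, hkd, zero_add]
  · exact ⟨x, hlx, hmx, h⟩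

theorem last_step {lam : ι → Module.Dual (ZMod 2) E} {r : ι → E} (hl : ∀ w, lam w ≠ 0)
    (hr : ∀ w, lam w (r w) = 0) (hs : ∑ w, r w = 0)
    (hι : Fintype.card ι = Module.finrank (ZMod 2) E) (l : ι) (z : ι → E)
    (hz : z ∈ Ind lam r (univ.erase l)) (hb : z ∉ Bad lam r l) :
    ∃ T : Finset E, Fintype.card E ≤ 8 * T.card ∧
      ∀ x ∈ T, Function.update z l x ∈ Ind lam r univ := by
  classical
  have hc : (univ.erase l).card < Module.finrank (ZMod 2) E := by
    rw [← hι, ← card_univ]; exact card_erase_lt_of_mem (mem_univ _)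
  obtain ⟨m, hm, hmU⟩ := exists_ann z _ hc
  obtain ⟨k, hk, hkU⟩ := exists_ann (fun i => z i + r i) _ hc
  have hm' : ∀ w, w ≠ l → m (z w) = 0 := fun w hw =>
    hmU _ (Submodule.subset_span ⟨w, by simpa using hw, rfl⟩)
  have hk' : ∀ w, w ≠ l → k (z w + r w) = 0 := fun w hw =>
    hkU _ (Submodule.subset_span ⟨w, by simpa using hw, rfl⟩)
  have h1 : k = m → k (r l) = 0 := by
    intro h
    have h2 : k (∑ w, r w) = k (r l) := by
      rw [map_sum]
      refine Finset.sum_eq_single l (fun w _ hw => ?_) (by simp)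
      have h3 := hk' w hw
      rwa [map_add, h, hm' w hw, zero_add, ← h] at h3
    rw [← h2, hs, map_zero]
  have h2 : m ≠ lam l → k = lam l + m → k (r l) = 1 := by
    intro hml h
    refine z2_ne fun h0 => hb (mem_Bad.2 ⟨(mem_Ind.1 hz).1, m, hm, hml, ?_, fun w hw => ?_⟩)
    · rwa [h, LinearMap.add_apply, hr, zero_add] at h0
    · exact ⟨hm' w hw, by rw [add_comm m, ← h]; exact hk' w hw⟩
  obtain ⟨x0, hx1, hx2, hx3⟩ := solve3 (hl l) hm hk (hr l) h1 h2
  refine ⟨univ.filter fun x => lam l x = 1 ∧ m x = 1 ∧ k (x + r l) = 1, ?_, fun x hx => ?_⟩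
  · have h3 := fibre_lower ((lam l).toAddMonoidHom.prod (m.toAddMonoidHom.prod k.toAddMonoidHom)) x0
      (univ.filter fun x => lam l x = 1 ∧ m x = 1 ∧ k (x + r l) = 1) (fun x hx => by
        simp only [AddMonoidHom.prod_apply, LinearMap.toAddMonoidHom_coe, Prod.mk.injEq] at hx
        refine mem_filter.2 ⟨mem_univ _, hx.1.trans hx1, hx.2.1.trans hx2, ?_⟩
        rw [map_add, hx.2.2, ← map_add, hx3])
    simpa [ZMod.card] using h3
  · obtain ⟨a, b, c⟩ := (mem_filter.1 hx).2
    have h3 := upd_mem hz (notMem_erase l univ) a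
      (fun h => by rw [hmU _ h] at b; exact absurd b (by decide))
      (fun h => by rw [hkU _ h] at c; exact absurd c (by decide))
    rwa [insert_erase (mem_univ _)] at h3

theorem exists_last {lam : ι → Module.Dual (ZMod 2) E} {r : ι → E} (hl : ∀ w, lam w ≠ 0)
    (hr : ∀ w, lam w (r w) = 0) (hι : Fintype.card ι = Module.finrank (ZMod 2) E)
    (h16 : 16 ≤ Fintype.card ι) : ∃ l, 8 * (Bad lam r l).card ≤ (Om lam).card := by
  classical
  have : Finite (Module.Dual (ZMod 2) E) :=
    Finite.of_injective (fun f : Module.Dual (ZMod 2) E => (f : E → ZMod 2)) DFunLike.coe_injective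
  have : Fintype (Module.Dual (ZMod 2) E) := Fintype.ofFinite _
  have hD : Fintype.card (Module.Dual (ZMod 2) E) = 2 ^ Fintype.card ι := by
    rw [card_E, Subspace.dual_finrank_eq, hι]
  obtain ⟨w0⟩ : Nonempty ι := Fintype.card_pos_iff.1 (by omega)
  set C := univ.filter (fun w => lam w = lam w0) with hC
  have hw0 : w0 ∈ C := by simp [hC]
  let M : ι → Finset (Module.Dual (ZMod 2) E) := fun l =>
    univ.filter fun m => m ≠ 0 ∧ m ≠ lam w0 ∧ m (r l) = 0 ∧ ∀ w ∈ C, w ≠ l → m (r w) = 1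
  have hM : ∑ l ∈ C, (M l).card ≤ 2 ^ Fintype.card ι := by
    rw [← hD, ← card_biUnion]
    · exact card_le_univ _
    · intro a ha b hb hab
      refine disjoint_left.2 fun m h1 h2 => ?_
      have h3 := (mem_filter.1 h1).2.2.2.1
      have h4 := (mem_filter.1 h2).2.2.2.2 a ha hab
      rw [h3] at h4
      exact absurd h4 (by decide)
  obtain ⟨l, hlC, hlM⟩ : ∃ l ∈ C, C.card * (M l).card ≤ 2 ^ Fintype.card ι := by
    obtain ⟨l, hlC, hmin⟩ := exists_min_image C (fun l => (M l).card) ⟨w0, hw0⟩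
    refine ⟨l, hlC, le_trans ?_ hM⟩
    rw [← smul_eq_mul]
    exact card_nsmul_le_sum _ _ _ hmin
  have hll : lam l = lam w0 := (mem_filter.1 hlC).2
  refine ⟨l, ?_⟩
  let e : ι → ℕ := fun w => (if w = l then 0 else 1) + (if w ∈ C then 0 else 1)
  let B : Module.Dual (ZMod 2) E → ι → Finset E := fun m w =>
    univ.filter fun x => lam w x = 1 ∧ (w ≠ l → m x = 0 ∧ (m + lam l) (x + r w) = 0)
  have h1 : Bad lam r l ⊆ (M l).biUnion fun m => Fintype.piFinset (B m) := by
    intro z hz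
    obtain ⟨hz1, m, hm0, hm1, hm2, hm3⟩ := mem_Bad.1 hz
    refine mem_biUnion.2 ⟨m, mem_filter.2 ⟨mem_univ _, hm0, hll ▸ hm1, hm2, fun w hw hwl => ?_⟩,
      Fintype.mem_piFinset.2 fun w => mem_filter.2 ⟨mem_univ _, hz1 w, hm3 w⟩⟩
    have h2 := (hm3 w hwl).2
    have h3 : lam l = lam w := hll.trans (mem_filter.1 hw).2.symm
    rw [LinearMap.add_apply, map_add, map_add, (hm3 w hwl).1, h3, hz1, hr] at h2
    rcases z2 (m (r w)) with h4 | h4
    · rw [h4] at h2; exact absurd h2 (by decide)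
    · exact h4
  have h2 : ∀ m ∈ M l, 2 ^ (∑ w, e w) * (Fintype.piFinset (B m)).card ≤ (Om lam).card := by
    intro m hm
    obtain ⟨hm0, hm1, -, -⟩ := (mem_filter.1 hm).2
    refine pi_le _ _ e fun w => ?_
    by_cases hw : w = l
    · subst hw
      have : e w = 0 := by simp [e, hlC]
      rw [this, pow_zero, one_mul]
      exact card_le_card fun x hx => mem_hyp.2 (mem_filter.1 hx).2.1
    · by_cases hwC : w ∈ C
      · have : e w = 1 := by simp [e, hw, hwC]
        rw [this, pow_one]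
        exact hyp_half hm0 _ fun x hx =>
          ⟨(mem_filter.1 hx).2.1, ((mem_filter.1 hx).2.2 hw).1⟩
      · have : e w = 2 := by simp [e, hw, hwC]
        rw [this]
        refine hyp_quarter (l0 := lam l) (hr w) (hl l) (fun h => hwC ?_) hm0 (hll ▸ hm1) _
          fun x hx => ⟨(mem_filter.1 hx).2.1, (mem_filter.1 hx).2.2 hw⟩
        exact mem_filter.2 ⟨mem_univ _, h.trans hll⟩
  have hCle : C.card ≤ Fintype.card ι := card_le_univ _
  have hCpos : 0 < C.card := card_pos.2 ⟨w0, hw0⟩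
  have he : ∑ w, e w + 1 = Fintype.card ι + (Fintype.card ι - C.card) := by
    have h3 : ∑ w : ι, (if w = l then 0 else 1) = (univ.erase l).card := by
      rw [← filter_ne' univ l, card_filter]
      exact sum_congr rfl fun w _ => by by_cases h : w = l <;> simp [h]
    have h4 : ∑ w : ι, (if w ∈ C then 0 else 1) = (Cᶜ).card := by
      have : Cᶜ = univ.filter (fun w => w ∉ C) := by ext w; simp
      rw [this, card_filter]
      exact sum_congr rfl fun w _ => by by_cases h : w ∈ C <;> simp [h]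
    simp only [e]
    rw [sum_add_distrib, h3, h4, card_erase_of_mem (mem_univ _), card_univ, card_compl]
    omega
  have h3 : 2 ^ (∑ w, e w) * (Bad lam r l).card ≤ (M l).card * (Om lam).card := by
    calc _ ≤ 2 ^ (∑ w, e w) * ∑ m ∈ M l, (Fintype.piFinset (B m)).card :=
          Nat.mul_le_mul_left _ ((card_le_card h1).trans card_biUnion_le)
      _ = ∑ m ∈ M l, 2 ^ (∑ w, e w) * (Fintype.piFinset (B m)).card := mul_sum _ _ _
      _ ≤ _ := by rw [← smul_eq_mul]; exact sum_le_card_nsmul _ _ _ h2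
  set k := Fintype.card ι - C.card with hk
  have h4 : 16 ≤ C.card * 2 ^ k := by
    have h5 : k + 1 ≤ 2 ^ k := Nat.lt_two_pow_self
    have h6 : C.card * (k + 1) ≤ C.card * 2 ^ k := Nat.mul_le_mul_left _ h5
    have h7 : k ≤ C.card * k := Nat.le_mul_of_pos_left _ hCpos
    have h8 : C.card * (k + 1) = C.card * k + C.card := by ring
    omega
  have h5 : 2 * 2 ^ (∑ w, e w) = 2 ^ Fintype.card ι * 2 ^ k := by
    rw [← pow_add, ← he, pow_succ, mul_comm]
  have h6 : 0 < 2 ^ Fintype.card ι := by positivity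
  have h7 : 2 ^ Fintype.card ι * ((C.card * 2 ^ k) * (Bad lam r l).card)
      ≤ 2 ^ Fintype.card ι * (2 * (Om lam).card) := by
    calc _ = 2 * C.card * (2 ^ (∑ w, e w) * (Bad lam r l).card) := by
          rw [show 2 * C.card * (2 ^ (∑ w, e w) * (Bad lam r l).card)
            = (2 * 2 ^ (∑ w, e w)) * C.card * (Bad lam r l).card by ring, h5]; ring
      _ ≤ 2 * C.card * ((M l).card * (Om lam).card) := Nat.mul_le_mul_left _ h3
      _ = (C.card * (M l).card) * (2 * (Om lam).card) := by ring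
      _ ≤ _ := Nat.mul_le_mul_right _ hlM
  have h8 := Nat.le_of_mul_le_mul_left h7 h6
  have h9 := Nat.mul_le_mul_right (Bad lam r l).card h4
  omega

/-- With probability at least `1 / 32` both families are independent. -/
theorem star_bound {lam : ι → Module.Dual (ZMod 2) E} {r : ι → E} (hl : ∀ w, lam w ≠ 0)
    (hr : ∀ w, lam w (r w) = 0) (hs : ∑ w, r w = 0)
    (hι : Fintype.card ι = Module.finrank (ZMod 2) E) (h16 : 16 ≤ Fintype.card ι) :
    (Om lam).card ≤ 32 * (Ind lam r univ).card := by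
  classical
  obtain ⟨k, hk⟩ : ∃ k, Fintype.card ι = k + 3 := ⟨Fintype.card ι - 3, by omega⟩
  have hE : Fintype.card E = 8 * 2 ^ k := by rw [card_E, ← hι, hk]; ring
  have hh : ∀ w, (hyp (lam w)).card = 2 * 2 ^ (k + 1) := fun w => by
    have := card_hyp (hl w)
    rw [pow_succ]
    omega
  obtain ⟨l, hbad⟩ := exists_last hl hr hι h16
  have h1 := ind_quarter hr (k + 1) hk hh l
  have h2 := coord_le (Ind lam r (univ.erase l) \ Bad lam r l) (Ind lam r univ) l (hyp (lam l))
    (2 ^ k) (fun z hz => mem_hyp.2 ((mem_Ind.1 (mem_sdiff.1 hz).1).1 l)) fun z hz => by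
      obtain ⟨T, hT, hT'⟩ := last_step hl hr hs hι l z (mem_sdiff.1 hz).1 (mem_sdiff.1 hz).2
      exact ⟨T, by omega, hT'⟩
  have h3 := le_card_sdiff (Bad lam r l) (Ind lam r (univ.erase l))
  rw [hh, pow_succ] at h2
  have h4 : (Ind lam r (univ.erase l) \ Bad lam r l).card ≤ 4 * (Ind lam r univ).card :=
    Nat.le_of_mul_le_mul_left (by nlinarith) (show 0 < 2 ^ k by positivity)
  omega

theorem span_of_indep {z : ι → E} (hz : LinearIndepOn (ZMod 2) z ((univ : Finset ι) : Set ι))
    (hι : Fintype.card ι = Module.finrank (ZMod 2) E) (y : Module.Dual (ZMod 2) E) (hy : y ≠ 0) :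
    ∃ w, y (z w) ≠ 0 := by
  rw [coe_univ, linearIndepOn_univ_iff] at hz
  have h := hz.span_eq_top_of_card_eq_finrank' hι
  by_contra hc
  push Not at hc
  exact hy (LinearMap.ext_on_range h (by simpa using hc))

end Pool.Agent.Lib.MP_12b84a_co.HC
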